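import Pool.Agent.H596.Q.Gcd

/-!
# Two families of exponentials against one number
-/

set_option autoImplicit false

namespace Pool.Agent.H596.Q

open Pool.Agent.TH456.TM (MeasT)

section ren

variable {σ τ : Type*} [Fintype σ] [Fintype τ]

lemma ren_coeff (f : σ → τ) (hf : Function.Injective f) (P : MvPolynomial σ ℤ) (H : ℝ) (hH0 : 0 ≤ H)
    (hH : ∀ m, |((P.coeff m : ℤ) : ℝ)| ≤ H) (m : τ →₀ ℕ) :
    |(((MvPolynomial.rename f P).coeff m : ℤ) : ℝ)| ≤ H := by
  classical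
  by_cases h : ∃ m', Finsupp.mapDomain f m' = m
  · obtain ⟨m', rfl⟩ := h
    rw [MvPolynomial.coeff_rename_mapDomain f hf]
    exact hH m'
  · have : (MvPolynomial.rename f P).coeff m = 0 :=
      MvPolynomial.coeff_rename_eq_zero f P m fun u hu => absurd ⟨u, hu⟩ h
    rw [this]; simpa using hH0

lemma ren_degree (f : σ → τ) (hf : Function.Injective f) (P : MvPolynomial σ ℤ) (i : σ) :
    (MvPolynomial.rename f P).degreeOf (f i) = P.degreeOf i :=
  MvPolynomial.degreeOf_rename_of_injective hf i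

lemma ren_degree_zero (f : σ → τ) (P : MvPolynomial σ ℤ) (j : τ) (hj : j ∉ Set.range f) :
    (MvPolynomial.rename f P).degreeOf j = 0 := by
  classical
  rw [← Nat.le_zero, MvPolynomial.degreeOf_le_iff]
  intro m hm
  obtain ⟨m', rfl, -⟩ := MvPolynomial.coeff_rename_ne_zero f P m (MvPolynomial.mem_support_iff.1 hm)
  rw [Finsupp.mapDomain_of_notMem_range _ _ hj]

lemma ren_degree_le (f : σ → τ) (hf : Function.Injective f) (P : MvPolynomial σ ℤ) (d : ℕ)
    (hP : ∀ i, P.degreeOf i ≤ d) (j : τ) : (MvPolynomial.rename f P).degreeOf j ≤ d := by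
  by_cases hj : j ∈ Set.range f
  · obtain ⟨i, rfl⟩ := hj
    rw [ren_degree f hf]
    exact hP i
  · rw [ren_degree_zero f P j hj]
    exact Nat.zero_le _

lemma dvd_degree (D P : MvPolynomial τ ℤ) (hP : P ≠ 0) (h : D ∣ P) (j : τ)
    (hj : P.degreeOf j = 0) : D.degreeOf j = 0 := by
  obtain ⟨E, rfl⟩ := h
  rw [MvPolynomial.degreeOf_mul_eq (left_ne_zero_of_mul hP) (right_ne_zero_of_mul hP)] at hj
  omega

end ren

variable {σ τ : Type*} [Fintype σ] [Fintype τ]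

lemma ev_ren_left (t : ℂ) (α : σ → ℂ) (β : τ → ℂ) (P : MvPolynomial (Option σ) ℤ) :
    ev t (Sum.elim α β) (MvPolynomial.rename (Option.map Sum.inl) P) = ev t α P := by
  rw [ev, ev, MvPolynomial.aeval_rename]
  congr 1
  congr 1
  funext o
  rcases o with _ | i <;> rfl

lemma ev_ren_right (t : ℂ) (α : σ → ℂ) (β : τ → ℂ) (P : MvPolynomial (Option τ) ℤ) :
    ev t (Sum.elim α β) (MvPolynomial.rename (Option.map Sum.inr) P) = ev t β P := by
  rw [ev, ev, MvPolynomial.aeval_rename]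
  congr 1
  congr 1
  funext o
  rcases o with _ | i <;> rfl

/-- **Two families.** -/
theorem partG (t : ℂ) (ht : MeasT t) (α : σ → ℂ) (β : τ → ℂ)
    (hα : ∀ i, IsAlgebraic ℚ (α i)) (hβ : ∀ i, IsAlgebraic ℚ (β i))
    (hli : LinearIndependent ℚ (Sum.elim α β)) (d : ℕ) :
    ∃ κ : ℕ, ∃ c : ℝ, 0 < c ∧ ∀ (P : MvPolynomial (Option σ) ℤ) (Q : MvPolynomial (Option τ) ℤ),
      P ≠ 0 → Q ≠ 0 → (∀ o, P.degreeOf o ≤ d) → (∀ o, Q.degreeOf o ≤ d) → ∀ H : ℝ, 1 ≤ H →
      (∀ m, |((P.coeff m : ℤ) : ℝ)| ≤ H) → (∀ m, |((Q.coeff m : ℤ) : ℝ)| ≤ H) →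
      c ≤ H ^ κ * max ‖ev t α P‖ ‖ev t β Q‖ := by
  classical
  obtain ⟨κ, c, hc, h⟩ := partF t ht (Sum.elim α β) (by rintro (i | i); exacts [hα i, hβ i]) hli d
  refine ⟨κ, c, hc, fun P Q hP hQ hPd hQd H hH hPH hQH => ?_⟩
  have hH0 : 0 ≤ H := by linarith
  have hl : Function.Injective (Option.map (Sum.inl : σ → σ ⊕ τ)) :=
    Option.map_injective Sum.inl_injective
  have hr : Function.Injective (Option.map (Sum.inr : τ → σ ⊕ τ)) :=
    Option.map_injective Sum.inr_injective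
  have hP0 : MvPolynomial.rename (Option.map (Sum.inl : σ → σ ⊕ τ)) P ≠ 0 := by
    rw [Ne, map_eq_zero_iff _ (MvPolynomial.rename_injective _ hl)]; exact hP
  have hQ0 : MvPolynomial.rename (Option.map (Sum.inr : τ → σ ⊕ τ)) Q ≠ 0 := by
    rw [Ne, map_eq_zero_iff _ (MvPolynomial.rename_injective _ hr)]; exact hQ
  have h1 := h (MvPolynomial.rename (Option.map Sum.inl) P)
    (MvPolynomial.rename (Option.map Sum.inr) Q) hP0 hQ0 (ren_degree_le _ hl P d hPd)
    (ren_degree_le _ hr Q d hQd) (fun D hD1 hD2 i => by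
      rcases i with i | i
      · refine dvd_degree D _ hQ0 hD2 _ (ren_degree_zero _ _ _ ?_)
        rintro ⟨o, ho⟩
        rcases o with _ | o <;> simp at ho
      · refine dvd_degree D _ hP0 hD1 _ (ren_degree_zero _ _ _ ?_)
        rintro ⟨o, ho⟩
        rcases o with _ | o <;> simp at ho) H hH
    (ren_coeff _ hl P H hH0 hPH) (ren_coeff _ hr Q H hH0 hQH)
  rwa [ev_ren_left, ev_ren_right] at h1

/-- complex conjugation -/
lemma ev_conj (t : ℝ) (α : σ → ℂ) (P : MvPolynomial (Option σ) ℤ) :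
    ev (t : ℂ) (fun i => (starRingEnd ℂ) (α i)) P = (starRingEnd ℂ) (ev (t : ℂ) α P) := by
  rw [ev, ev]
  have h : ((starRingEnd ℂ).comp ((MvPolynomial.aeval (fun o : Option σ => o.elim (t : ℂ) fun i =>
      Complex.exp (α i)) : MvPolynomial (Option σ) ℤ →ₐ[ℤ] ℂ) : MvPolynomial (Option σ) ℤ →+* ℂ)) =
      ((MvPolynomial.aeval (fun o : Option σ => o.elim (t : ℂ) fun i =>
        Complex.exp ((starRingEnd ℂ) (α i))) : MvPolynomial (Option σ) ℤ →ₐ[ℤ] ℂ) :
        MvPolynomial (Option σ) ℤ →+* ℂ) := by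
    refine MvPolynomial.ringHom_ext (fun r => ?_) fun o => ?_
    · simp
    · rcases o with _ | i
      · simp
      · simp [← Complex.exp_conj]
  exact (congrArg (fun f : MvPolynomial (Option σ) ℤ →+* ℂ => f P) h).symm

lemma conj_alg (x : ℂ) (hx : IsAlgebraic ℚ x) : IsAlgebraic ℚ ((starRingEnd ℂ) x) := by
  obtain ⟨p, hp, hpx⟩ := hx
  refine ⟨p, hp, ?_⟩
  have h : ((starRingEnd ℂ).comp ((Polynomial.aeval x : Polynomial ℚ →ₐ[ℚ] ℂ) :
      Polynomial ℚ →+* ℂ)) = ((Polynomial.aeval ((starRingEnd ℂ) x) : Polynomial ℚ →ₐ[ℚ] ℂ) :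
      Polynomial ℚ →+* ℂ) := by
    refine Polynomial.ringHom_ext (fun r => ?_) ?_
    · simp
    · simp
  have h1 := congrArg (fun f : Polynomial ℚ →+* ℂ => f p) h
  simp only [RingHom.comp_apply, RingHom.coe_coe, hpx, map_zero] at h1
  exact h1.symm

end Pool.Agent.H596.Q
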