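import Mathlib

/-!
# Analytic estimates for a quantitative form of the theorem of Lindemann and Weierstrass
-/

set_option autoImplicit false

namespace Pool.Agent.H596.Q

open Polynomial Complex

/-- `g` is a majorant of `f` -/
def Maj (f : ℂ[X]) (g : ℝ[X]) : Prop := ∀ i, ‖f.coeff i‖ ≤ g.coeff i

lemma Maj.nonneg {f : ℂ[X]} {g : ℝ[X]} (h : Maj f g) (i : ℕ) : 0 ≤ g.coeff i :=
  (norm_nonneg _).trans (h i)

lemma Maj.mul {f₁ f₂ : ℂ[X]} {g₁ g₂ : ℝ[X]} (h₁ : Maj f₁ g₁) (h₂ : Maj f₂ g₂) :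
    Maj (f₁ * f₂) (g₁ * g₂) := by
  intro i
  rw [coeff_mul, coeff_mul]
  refine (norm_sum_le _ _).trans (Finset.sum_le_sum fun x _ => ?_)
  rw [norm_mul]
  exact mul_le_mul (h₁ _) (h₂ _) (norm_nonneg _) (h₁.nonneg _)

lemma Maj.one : Maj 1 1 := by
  intro i
  rw [coeff_one, coeff_one]
  split_ifs <;> simp

lemma Maj.pow {f : ℂ[X]} {g : ℝ[X]} (h : Maj f g) (n : ℕ) : Maj (f ^ n) (g ^ n) := by
  induction n with
  | zero => rw [pow_zero, pow_zero]; exact Maj.one
  | succ n ih => rw [pow_succ, pow_succ]; exact ih.mul h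

lemma Maj.prod {ι : Type*} (s : Finset ι) (f : ι → ℂ[X]) (g : ι → ℝ[X])
    (h : ∀ i ∈ s, Maj (f i) (g i)) : Maj (∏ i ∈ s, f i) (∏ i ∈ s, g i) := by
  classical
  induction s using Finset.induction_on with
  | empty => rw [Finset.prod_empty, Finset.prod_empty]; exact Maj.one
  | insert a s ha ih =>
    rw [Finset.prod_insert ha, Finset.prod_insert ha]
    exact (h a (Finset.mem_insert_self _ _)).mul (ih fun i hi => h i (Finset.mem_insert_of_mem hi))

lemma Maj.lin (a b : ℂ) (A : ℝ) (ha : ‖a‖ ≤ A) (hb : ‖b‖ ≤ A) :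
    Maj (C a * X - C b) (C A * X + C A) := by
  intro i
  rcases i with _ | _ | i
  · simp only [coeff_sub, coeff_add, coeff_C_mul, coeff_X_zero, mul_zero, coeff_C_zero, zero_sub,
      norm_neg, zero_add]
    exact hb
  · simp only [zero_add, coeff_sub, coeff_add, coeff_C_mul, coeff_X_one, mul_one, coeff_C_succ,
      sub_zero, add_zero]
    exact ha
  · simp [coeff_X]

lemma Maj.eval {f : ℂ[X]} {g : ℝ[X]} (h : Maj f g) (x : ℂ) : ‖f.eval x‖ ≤ g.eval ‖x‖ := by
  set n := max f.natDegree g.natDegree with hn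
  rw [eval_eq_sum_range' (lt_of_le_of_lt (le_max_left _ _) (Nat.lt_succ_self n)),
    eval_eq_sum_range' (lt_of_le_of_lt (le_max_right _ _) (Nat.lt_succ_self n))]
  refine (norm_sum_le _ _).trans (Finset.sum_le_sum fun i _ => ?_)
  rw [norm_mul, norm_pow]
  exact mul_le_mul_of_nonneg_right (h i) (by positivity)

lemma Maj.sumIDeriv {f : ℂ[X]} {g : ℝ[X]} (h : Maj f g) (n : ℕ) (hf : f.natDegree ≤ n)
    (hg : g.natDegree ≤ n) :
    ‖(Polynomial.sumIDeriv f).eval 0‖ ≤ n.factorial * g.eval 1 := by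
  rw [sumIDeriv_apply_of_le hf, eval_finsetSum, eval_eq_sum_range' (Nat.lt_succ_of_le hg),
    Finset.mul_sum]
  refine (norm_sum_le _ _).trans (Finset.sum_le_sum fun i hi => ?_)
  rw [← coeff_zero_eq_eval_zero, coeff_iterate_derivative, zero_add, Nat.descFactorial_self,
    one_pow, mul_one, nsmul_eq_mul, norm_mul, norm_natCast]
  have h1 : i ≤ n := by rw [Finset.mem_range] at hi; omega
  exact mul_le_mul (by exact_mod_cast Nat.factorial_le h1) (h i) (norm_nonneg _) (by positivity)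

/-- Hermite's estimate -/
lemma hermite (f : ℂ[X]) (s : ℂ) (M : ℝ)
    (hM : ∀ x ∈ Set.Ioc (0 : ℝ) 1, ‖f.eval (x • s)‖ ≤ M) :
    ‖exp s * (Polynomial.sumIDeriv f).eval 0 - (Polynomial.sumIDeriv f).eval s‖ ≤
      Real.exp ‖s‖ * (‖s‖ * (Real.exp ‖s‖ * M)) := by
  have hM0 : 0 ≤ M := (norm_nonneg _).trans (hM 1 ⟨by norm_num, le_refl _⟩)
  have h0 := LindemannWeierstrass.integral_exp_mul_eval f s
  have h1 : exp s * (Polynomial.sumIDeriv f).eval 0 - (Polynomial.sumIDeriv f).eval s =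
      exp s * (s * ∫ x in (0 : ℝ)..1, exp (-(x • s)) * f.eval (x • s)) := by
    rw [h0, mul_add, mul_neg, exp_neg, mul_inv_cancel_left₀ (exp_ne_zero s)]
    ring
  rw [h1, norm_mul, norm_mul, norm_exp]
  have h2 : ‖∫ x in (0 : ℝ)..1, exp (-(x • s)) * f.eval (x • s)‖ ≤
      Real.exp ‖s‖ * M * |1 - 0| := by
    apply intervalIntegral.norm_integral_le_of_norm_le_const
    intro x hx
    rw [Set.uIoc_of_le zero_le_one] at hx
    rw [norm_mul, norm_exp]
    refine mul_le_mul ?_ (hM x hx) (norm_nonneg _) (by positivity)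
    rw [Real.exp_le_exp]
    refine (re_le_norm _).trans ?_
    rw [norm_neg, norm_smul, Real.norm_of_nonneg hx.1.le]
    exact mul_le_of_le_one_left (norm_nonneg _) hx.2
  rw [sub_zero, abs_one, mul_one] at h2
  refine mul_le_mul (Real.exp_le_exp.2 (re_le_norm _)) (mul_le_mul_of_nonneg_left h2 (norm_nonneg _))
    (by positivity) (by positivity)

end Pool.Agent.H596.Q
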