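import Pool.Agent.H596.Q.Ana

/-!
# The arithmetic of the Hermite-Lindemann approximations
-/

set_option autoImplicit false

namespace Pool.Agent.H596.Q

open Polynomial NumberField
open scoped Nat

/-- the auxiliary polynomial -/
noncomputable def pol {R ι : Type*} [CommRing R] [DecidableEq ι] (S : Finset ι) (a : R)
    (g : ι → R) (p : ℕ) (k : ι) : R[X] :=
  (C a * X - C (g k)) ^ (p - 1) * ∏ l ∈ S.erase k, (C a * X - C (g l)) ^ p

lemma pol_map {R R' ι : Type*} [CommRing R] [CommRing R'] [DecidableEq ι] (S : Finset ι) (a : R)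
    (g : ι → R) (p : ℕ) (k : ι) (f : R →+* R') :
    (pol S a g p k).map f = pol S (f a) (fun l => f (g l)) p k := by
  simp only [pol, Polynomial.map_mul, Polynomial.map_pow, Polynomial.map_sub, map_C, map_X,
    Polynomial.map_prod]

lemma pol_natDegree {R ι : Type*} [CommRing R] [DecidableEq ι] (S : Finset ι) (a : R)
    (g : ι → R) (p : ℕ) (k : ι) (hk : k ∈ S) : (pol S a g p k).natDegree ≤ S.card * p := by
  have h1 : ∀ l, (C a * X - C (g l)).natDegree ≤ 1 := fun l => by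
    rw [sub_eq_add_neg, ← C_neg]; exact natDegree_linear_le
  rw [pol]
  refine natDegree_mul_le.trans ?_
  have h2 : ((C a * X - C (g k)) ^ (p - 1)).natDegree ≤ p - 1 := by
    refine natDegree_pow_le.trans ?_
    calc _ ≤ (p - 1) * 1 := Nat.mul_le_mul_left _ (h1 k)
      _ = _ := mul_one _
  have h3 : (∏ l ∈ S.erase k, (C a * X - C (g l)) ^ p).natDegree ≤ (S.card - 1) * p := by
    refine (natDegree_prod_le _ _).trans ?_
    rw [← Finset.card_erase_of_mem hk, ← smul_eq_mul]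
    refine Finset.sum_le_card_nsmul _ _ _ fun l _ => ?_
    refine natDegree_pow_le.trans ?_
    calc _ ≤ p * 1 := Nat.mul_le_mul_left _ (h1 l)
      _ = _ := mul_one _
  have h4 : 0 < S.card := Finset.card_pos.2 ⟨k, hk⟩
  obtain ⟨m, hm⟩ : ∃ m, S.card = m + 1 := ⟨S.card - 1, by omega⟩
  rw [hm] at h3 ⊢
  rw [Nat.add_sub_cancel] at h3
  calc _ ≤ (p - 1) + m * p := Nat.add_le_add h2 h3
    _ ≤ (m + 1) * p := by
      rw [add_mul, one_mul]; omega

/-- the main value -/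
noncomputable def W {R ι : Type*} [CommRing R] [DecidableEq ι] (S : Finset ι) (a : R)
    (g : ι → R) (p : ℕ) (k : ι) : R :=
  a ^ (p - 1) * ∏ l ∈ S.erase k, (g k - g l) ^ p

variable {K : Type*} [Field K] [NumberField K] [DecidableEq K]

lemma values (S : Finset K) (a : ℕ) (g : K → 𝓞 K)
    (hg : ∀ γ ∈ S, algebraMap (𝓞 K) K (g γ) = a * γ) (p : ℕ) (hp : 0 < p) (k : K) (hk : k ∈ S) :
    ∃ G : (𝓞 K)[X], G.natDegree ≤ S.card * p ∧ ∀ r ∈ S,
      aeval r (sumIDeriv (pol S (a : 𝓞 K) g p k)) =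
        (p - 1)! • (if r = k then algebraMap (𝓞 K) K (W S (a : 𝓞 K) g p k) else 0) + p ! • aeval r G := by
  obtain ⟨G, hG1, hG2⟩ := aeval_sumIDeriv_of_pos K (pol S (a : 𝓞 K) g p k) hp
    (FaithfulSMul.algebraMap_injective (𝓞 K) K)
  refine ⟨G, hG1.trans ((Nat.sub_le _ _).trans (pol_natDegree S _ g p k hk)), fun r hr => ?_⟩
  have hmap : (pol S (a : 𝓞 K) g p k).map (algebraMap (𝓞 K) K) =
      (C (a : K) * X - C (a * k)) ^ (p - 1) * ∏ l ∈ S.erase k, (C (a : K) * X - C (a * l)) ^ p := by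
    rw [pol_map, pol]
    rw [map_natCast]
    rw [hg k hk]
    congr 1
    refine Finset.prod_congr rfl fun l hl => ?_
    rw [hg l (Finset.mem_of_mem_erase hl)]
  have hlin : ∀ l : K, C (a : K) * X - C (a * l) = C (a : K) * (X - C l) := by
    intro l
    rw [mul_sub, C_mul]
  by_cases hrk : r = k
  · subst hrk
    rw [if_pos rfl]
    rw [hG2 r (p' := C ((a : K) ^ (p - 1)) *
      ∏ l ∈ S.erase r, (C (a : K) * X - C (a * l)) ^ p) (by
        rw [hmap, hlin r, mul_pow, C_pow]; ring)]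
    congr 2
    rw [W, eval_mul, eval_C, eval_prod, map_mul, map_pow, map_natCast, map_prod]
    congr 1
    refine Finset.prod_congr rfl fun l hl => ?_
    rw [eval_pow, map_pow, map_sub, hg l (Finset.mem_of_mem_erase hl), hg r hr]
    simp
  · rw [if_neg hrk]
    have hr' : r ∈ S.erase k := Finset.mem_erase.2 ⟨hrk, hr⟩
    obtain ⟨q, hq⟩ : ∃ q, p = q + 1 := ⟨p - 1, by omega⟩
    rw [hG2 r (p' := C ((a : K) ^ (p - 1)) * (C (a : K) * X - C (a * r)) *
      ((C (a : K) * X - C (a * k)) ^ (p - 1) *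
        ∏ l ∈ (S.erase k).erase r, (C (a : K) * X - C (a * l)) ^ p)) (by
        rw [hmap, ← Finset.mul_prod_erase _ _ hr']
        have : (C (a : K) * X - C (a * r)) ^ p =
            (X - C r) ^ (p - 1) * (C ((a : K) ^ (p - 1)) * (C (a : K) * X - C (a * r))) := by
          rw [hq, Nat.add_sub_cancel, pow_succ]
          nth_rewrite 1 [hlin r]
          rw [mul_pow, C_pow]; ring
        rw [this]; ring)]
    congr 2
    simp

/-- an algebraic integer times a power of the denominator -/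
lemma scale (a : ℕ) (r : K) (g : 𝓞 K) (hg : algebraMap (𝓞 K) K g = a * r) (G : (𝓞 K)[X]) (N : ℕ)
    (hN : G.natDegree ≤ N) : ∃ z : 𝓞 K, algebraMap (𝓞 K) K z = a ^ N * aeval r G := by
  refine ⟨∑ i ∈ Finset.range (N + 1), G.coeff i * g ^ i * (a : 𝓞 K) ^ (N - i), ?_⟩
  rw [aeval_eq_sum_range' (Nat.lt_succ_of_le hN), Finset.mul_sum, map_sum]
  refine Finset.sum_congr rfl fun i hi => ?_
  have hi' : i ≤ N := by rw [Finset.mem_range] at hi; omega
  rw [map_mul, map_mul, map_pow, map_pow, hg, map_natCast, mul_pow, Algebra.smul_def]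
  have : (a : K) ^ N = a ^ i * a ^ (N - i) := by rw [← pow_add]; congr 1; omega
  rw [this]; ring

/-- the norm of a nonzero algebraic integer -/
lemma exists_conj [IsGalois ℚ K] (v : K →+* ℂ) (τ : 𝓞 K) (hτ : τ ≠ 0) :
    ∃ σ : K ≃ₐ[ℚ] K, 1 ≤ ‖v (σ (algebraMap (𝓞 K) K τ))‖ := by
  classical
  by_contra hcon
  push Not at hcon
  have h1 : (1 : ℝ) ≤ ‖v (algebraMap ℚ K (Algebra.norm ℚ (algebraMap (𝓞 K) K τ)))‖ := by
    have h2 : Algebra.norm ℤ τ ≠ 0 := Algebra.norm_ne_zero_iff.2 hτ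
    have h3 : Algebra.norm ℚ (algebraMap (𝓞 K) K τ) = (Algebra.norm ℤ τ : ℚ) :=
      (Algebra.coe_norm_int τ).symm
    rw [h3]
    simp only [eq_ratCast, Rat.cast_intCast, map_intCast]
    rw [Complex.norm_intCast]
    exact_mod_cast Int.one_le_abs h2
  rw [Algebra.norm_eq_prod_automorphisms, map_prod, norm_prod] at h1
  have h2 : ∏ σ : K ≃ₐ[ℚ] K, ‖v (σ (algebraMap (𝓞 K) K τ))‖ < 1 := by
    have h3 : ∏ σ : K ≃ₐ[ℚ] K, ‖v (σ (algebraMap (𝓞 K) K τ))‖ < ∏ σ : K ≃ₐ[ℚ] K, (1 : ℝ) := by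
      refine Finset.prod_lt_prod (fun σ _ => ?_) (fun σ _ => (hcon σ).le)
        ⟨1, Finset.mem_univ _, hcon 1⟩
      rw [norm_pos_iff]
      intro h0
      rw [map_eq_zero, map_eq_zero] at h0
      exact hτ ((map_eq_zero_iff _ (FaithfulSMul.algebraMap_injective (𝓞 K) K)).1 h0)
    rwa [Finset.prod_const_one] at h3
  exact absurd h1 (not_le.2 h2)

/-- **The main lemma.** -/
lemma core [IsGalois ℚ K] (v : K →+* ℂ) (S : Finset K)
    (hS : ∀ σ : K ≃ₐ[ℚ] K, ∀ γ ∈ S, σ γ ∈ S) (a : ℕ) (g : K → 𝓞 K)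
    (hg : ∀ γ ∈ S, algebraMap (𝓞 K) K (g γ) = a * γ) (b : K → ℤ)
    (hb : ∀ σ : K ≃ₐ[ℚ] K, ∀ γ, b (σ γ) = b γ) (p : ℕ) (hp : p.Prime) (hpa : ¬ p ∣ a)
    (hpN : ∀ k ∈ S, ∀ l ∈ S, k ≠ l → ¬ (p : ℤ) ∣ Algebra.norm ℤ (g k - g l)) (k : K) (hk : k ∈ S)
    (hbk : ¬ (p : ℤ) ∣ b k) :
    ∃ j ∈ S, (((p - 1)! : ℕ) : ℝ) ≤ a ^ (S.card * p) *
      ‖∑ γ ∈ S, (b γ : ℂ) * (sumIDeriv (pol S (a : ℂ) (fun l => a * v l) p j)).eval (v γ)‖ := by
  classical
  obtain ⟨G, hG1, hG2⟩ := values S a g hg p hp.pos k hk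
  choose z hz using fun r : S => scale a (r : K) (g r) (hg r r.2) G (S.card * p) hG1
  set N := S.card * p with hN
  -- the values in `K`
  have hval : ∀ j, ∀ γ : K, (aeval γ (sumIDeriv (pol S (a : K) (fun l => a * l) p j))) =
      (sumIDeriv (pol S (a : K) (fun l => a * l) p j)).eval γ := fun j γ => by
    rw [coe_aeval_eq_eval]
  have hval2 : ∀ γ : K, aeval γ (sumIDeriv (pol S (a : 𝓞 K) g p k)) =
      (sumIDeriv (pol S (a : K) (fun l => a * l) p k)).eval γ := by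
    intro γ
    rw [aeval_sumIDeriv_eq_eval]
    congr 2
    rw [pol_map, pol, pol, map_natCast, hg k hk]
    congr 1
    refine Finset.prod_congr rfl fun l hl => ?_
    rw [hg l (Finset.mem_of_mem_erase hl)]
  set T : K → K := fun j => a ^ N * ∑ γ ∈ S, (b γ : K) *
    (sumIDeriv (pol S (a : K) (fun l => a * l) p j)).eval γ with hT
  set τ : 𝓞 K := (a : 𝓞 K) ^ N * ((b k : 𝓞 K) * W S (a : 𝓞 K) g p k) +
    (p : 𝓞 K) * ∑ γ : S, (b γ : 𝓞 K) * z γ with hτ
  have hTτ : T k = ((p - 1)! : ℕ) * algebraMap (𝓞 K) K τ := by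
    rw [hT, hτ]
    simp only
    have h1 : ∀ γ ∈ S, (b γ : K) * (sumIDeriv (pol S (a : K) (fun l => a * l) p k)).eval γ =
        ((p - 1)! : ℕ) * ((if γ = k then (b γ : K) * algebraMap (𝓞 K) K (W S (a : 𝓞 K) g p k) else 0)
          + p * ((b γ : K) * aeval γ G)) := by
      intro γ hγ
      rw [← hval2, hG2 γ hγ, ← Nat.mul_factorial_pred hp.ne_zero]
      simp only [nsmul_eq_mul, Nat.cast_mul]
      split_ifs <;> ring
    rw [Finset.sum_congr rfl h1, ← Finset.mul_sum, Finset.sum_add_distrib, Finset.sum_ite_eq',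
      if_pos hk, ← Finset.mul_sum]
    rw [map_add, map_mul, map_mul, map_mul, map_sum, map_pow, map_natCast, map_natCast, map_intCast]
    have h2 : ∑ γ : S, algebraMap (𝓞 K) K ((b γ : 𝓞 K) * z γ) =
        a ^ N * ∑ γ ∈ S, (b γ : K) * aeval γ G := by
      rw [← Finset.sum_coe_sort S, Finset.mul_sum]
      refine Finset.sum_congr rfl fun γ _ => ?_
      rw [map_mul, map_intCast, hz]; ring
    rw [h2]; ring
  have hτ0 : τ ≠ 0 := by
    intro h0
    have h1 : (p : 𝓞 K) ∣ (a : 𝓞 K) ^ N * ((b k : 𝓞 K) * W S (a : 𝓞 K) g p k) := by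
      refine ⟨-∑ γ : S, (b γ : 𝓞 K) * z γ, ?_⟩
      rw [mul_neg, eq_neg_iff_add_eq_zero]
      exact h0
    have h2 : (p : ℤ) ∣ Algebra.norm ℤ ((a : 𝓞 K) ^ N * ((b k : 𝓞 K) * W S (a : 𝓞 K) g p k)) := by
      have h3 := map_dvd (Algebra.norm ℤ) h1
      have h4 : Algebra.norm ℤ (p : 𝓞 K) = (p : ℤ) ^ Module.finrank ℤ (𝓞 K) := by
        rw [← Algebra.norm_algebraMap (p : ℤ)]; simp
      rw [h4] at h3
      refine dvd_trans (dvd_pow_self _ ?_) h3
      rw [RingOfIntegers.rank]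
      exact Module.finrank_pos.ne'
    have hpp : Prime (p : ℤ) := Nat.prime_iff_prime_int.1 hp
    have hna : ¬ (p : ℤ) ∣ Algebra.norm ℤ (a : 𝓞 K) := by
      have h4 : Algebra.norm ℤ (a : 𝓞 K) = (a : ℤ) ^ Module.finrank ℤ (𝓞 K) := by
        rw [← Algebra.norm_algebraMap (a : ℤ)]; simp
      rw [h4]
      intro h5
      exact hpa (Int.natCast_dvd_natCast.1 (hpp.dvd_of_dvd_pow h5))
    have hnb : ¬ (p : ℤ) ∣ Algebra.norm ℤ (b k : 𝓞 K) := by
      have h4 : Algebra.norm ℤ (b k : 𝓞 K) = (b k) ^ Module.finrank ℤ (𝓞 K) := by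
        rw [← Algebra.norm_algebraMap (b k)]; simp
      rw [h4]
      intro h5
      exact hbk (hpp.dvd_of_dvd_pow h5)
    rw [map_mul, map_mul, map_pow, W, map_mul, map_pow, map_prod] at h2
    rcases hpp.dvd_or_dvd h2 with h3 | h3
    · exact hna (hpp.dvd_of_dvd_pow h3)
    rcases hpp.dvd_or_dvd h3 with h3 | h3
    · exact hnb h3
    rcases hpp.dvd_or_dvd h3 with h3 | h3
    · exact hna (hpp.dvd_of_dvd_pow h3)
    obtain ⟨l, hl, h4⟩ := (hpp.dvd_finsetProd_iff _).1 h3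
    rw [map_pow] at h4
    exact hpN k hk l (Finset.mem_of_mem_erase hl) (Finset.ne_of_mem_erase hl).symm
      (hpp.dvd_of_dvd_pow h4)
  obtain ⟨σ, hσ⟩ := exists_conj v τ hτ0
  refine ⟨σ k, hS σ k hk, ?_⟩
  have hperm : ∀ f : K → K, ∑ γ ∈ S, f (σ γ) = ∑ γ ∈ S, f γ := by
    intro f
    refine Finset.sum_bij (fun γ _ => σ γ) (fun γ hγ => hS σ γ hγ)
      (fun γ _ γ' _ h => σ.injective h) (fun γ hγ => ⟨σ.symm γ, hS σ.symm γ hγ, by simp⟩)
      (fun γ _ => rfl)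
  have hpolσ : (pol S (a : K) (fun l => a * l) p k).map (σ : K →+* K) =
      pol S (a : K) (fun l => a * l) p (σ k) := by
    rw [pol_map, pol, pol]
    simp only [RingHom.coe_coe, map_natCast, map_mul]
    congr 1
    refine Finset.prod_bij (fun γ _ => σ γ) (fun γ hγ => ?_)
      (fun γ _ γ' _ h => σ.injective h) (fun γ hγ => ?_) (fun γ _ => rfl)
    · rw [Finset.mem_erase] at hγ ⊢
      exact ⟨fun h => hγ.1 (σ.injective h), hS σ γ hγ.2⟩
    · rw [Finset.mem_erase] at hγ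
      refine ⟨σ.symm γ, ?_, by simp⟩
      rw [Finset.mem_erase]
      exact ⟨fun h => hγ.1 (by rw [← h]; simp), hS σ.symm γ hγ.2⟩
  have hTσ : σ (T k) = T (σ k) := by
    rw [hT]
    simp only [map_mul, map_pow, map_natCast, map_sum, map_intCast]
    congr 1
    rw [← hperm fun γ => (b γ : K) * (sumIDeriv (pol S (a : K) (fun l => a * l) p (σ k))).eval γ]
    refine Finset.sum_congr rfl fun γ _ => ?_
    rw [hb σ γ, ← hpolσ, sumIDeriv_map]
    congr 1
    have := (eval_map_apply (σ : K →+* K) γ (p := sumIDeriv (pol S (a : K) (fun l => a * l) p k)))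
    simpa using this.symm
  have h1 : ‖v (T (σ k))‖ = (((p - 1)! : ℕ) : ℝ) * ‖v (σ (algebraMap (𝓞 K) K τ))‖ := by
    rw [← hTσ, hTτ, map_mul, map_mul, map_natCast, map_natCast, norm_mul, Complex.norm_natCast]
  have h2 : v (T (σ k)) = a ^ N * ∑ γ ∈ S, (b γ : ℂ) *
      (sumIDeriv (pol S (a : ℂ) (fun l => a * v l) p (σ k))).eval (v γ) := by
    rw [hT]
    simp only [map_mul, map_pow, map_natCast, map_sum, map_intCast]
    congr 1
    refine Finset.sum_congr rfl fun γ _ => ?_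
    congr 1
    have h3 : pol S (a : ℂ) (fun l => a * v l) p (σ k) =
        (pol S (a : K) (fun l => a * l) p (σ k)).map v := by
      rw [pol_map]
      simp only [map_natCast, map_mul]
    rw [h3, sumIDeriv_map, eval_map_apply]
  have h3 : ‖v (T (σ k))‖ = a ^ N * ‖∑ γ ∈ S, (b γ : ℂ) *
      (sumIDeriv (pol S (a : ℂ) (fun l => a * v l) p (σ k))).eval (v γ)‖ := by
    rw [h2, norm_mul, norm_pow, Complex.norm_natCast]
  rw [← h3, h1]
  exact le_mul_of_one_le_right (by positivity) hσ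

end Pool.Agent.H596.Q
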