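import Mathlib

/-!
# The height of a factor of a polynomial in several variables
-/

set_option autoImplicit false

namespace Pool.Agent.H596.Q

open Polynomial

section kron

variable {τ : Type*} [Fintype τ]

/-- the exponent in the substitution of Kronecker -/
noncomputable def kw (d : ℕ) (m : τ →₀ ℕ) : ℕ := ∑ i, m i * (d + 1) ^ (Fintype.equivFin τ i : ℕ)

/-- the substitution of Kronecker -/
noncomputable def kr (d : ℕ) : MvPolynomial τ ℤ →+* ℤ[X] :=
  MvPolynomial.eval₂Hom (Int.castRingHom ℤ[X]) fun i =>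
    X ^ ((d + 1) ^ (Fintype.equivFin τ i : ℕ))

lemma kr_monomial (d : ℕ) (m : τ →₀ ℕ) (r : ℤ) :
    kr d (MvPolynomial.monomial m r) = C r * X ^ (kw d m) := by
  rw [kr, MvPolynomial.coe_eval₂Hom, MvPolynomial.eval₂_monomial, Finsupp.prod_fintype _ _
    (fun i => pow_zero _), kw, ← Finset.prod_pow_eq_pow_sum]
  congr 1
  refine Finset.prod_congr rfl fun i _ => ?_
  rw [← pow_mul, mul_comm]

lemma kr_eq (d : ℕ) (P : MvPolynomial τ ℤ) :
    kr d P = ∑ m ∈ P.support, C (P.coeff m) * X ^ (kw d m) := by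
  conv_lhs => rw [MvPolynomial.as_sum P]
  rw [map_sum]
  exact Finset.sum_congr rfl fun m _ => kr_monomial d m _

lemma kw_inj (d : ℕ) (m m' : τ →₀ ℕ) (hm : ∀ i, m i ≤ d) (hm' : ∀ i, m' i ≤ d)
    (h : kw d m = kw d m') : m = m' := by
  classical
  have key : ∀ (f : τ →₀ ℕ) (hf : ∀ i, f i ≤ d), kw d f =
      (finFunctionFinEquiv (fun j : Fin (Fintype.card τ) =>
        (⟨f ((Fintype.equivFin τ).symm j), Nat.lt_succ_of_le (hf _)⟩ : Fin (d + 1))) : ℕ) := by
    intro f hf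
    rw [finFunctionFinEquiv_apply, kw]
    rw [← (Fintype.equivFin τ).sum_comp]
    refine Finset.sum_congr rfl fun i _ => ?_
    simp
  rw [key m hm, key m' hm'] at h
  have h1 := finFunctionFinEquiv.injective (Fin.ext h)
  ext i
  have h2 := congrFun h1 (Fintype.equivFin τ i)
  simpa using h2

lemma kw_lt (d : ℕ) (m : τ →₀ ℕ) (hm : ∀ i, m i ≤ d) : kw d m < (d + 1) ^ Fintype.card τ := by
  classical
  have key : kw d m =
      (finFunctionFinEquiv (fun j : Fin (Fintype.card τ) =>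
        (⟨m ((Fintype.equivFin τ).symm j), Nat.lt_succ_of_le (hm _)⟩ : Fin (d + 1))) : ℕ) := by
    rw [finFunctionFinEquiv_apply, kw]
    rw [← (Fintype.equivFin τ).sum_comp]
    refine Finset.sum_congr rfl fun i _ => ?_
    simp
  rw [key]
  exact Fin.is_lt _

lemma kr_coeff (d : ℕ) (P : MvPolynomial τ ℤ) (hP : ∀ i, P.degreeOf i ≤ d) (m : τ →₀ ℕ)
    (hm : ∀ i, m i ≤ d) : (kr d P).coeff (kw d m) = P.coeff m := by
  classical
  rw [kr_eq, finsetSum_coeff]
  simp only [coeff_C_mul, coeff_X_pow]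
  rw [Finset.sum_congr rfl (g := fun m' => if m' = m then P.coeff m' else 0) (fun m' hm' => by
    by_cases h : m' = m
    · rw [if_pos h, if_pos (by rw [h]), mul_one]
    · rw [if_neg h, if_neg (fun h' => h (kw_inj d m' m (fun i =>
        (MvPolynomial.degreeOf_le_iff.1 (hP i)) m' hm') hm h'.symm)), mul_zero])]
  rw [Finset.sum_ite_eq']
  split_ifs with h
  · rfl
  · exact (MvPolynomial.notMem_support_iff.1 h).symm

lemma kr_ne (d : ℕ) (P : MvPolynomial τ ℤ) (hP : ∀ i, P.degreeOf i ≤ d) (h : P ≠ 0) :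
    kr d P ≠ 0 := by
  intro h0
  apply h
  ext m
  rw [MvPolynomial.coeff_zero]
  by_cases hm : ∀ i, m i ≤ d
  · rw [← kr_coeff d P hP m hm, h0, coeff_zero]
  · by_contra hne
    exact hm fun i => (MvPolynomial.degreeOf_le_iff.1 (hP i)) m (MvPolynomial.mem_support_iff.2 hne)

lemma kr_le (d : ℕ) (P : MvPolynomial τ ℤ) (hP : ∀ i, P.degreeOf i ≤ d) (H : ℝ) (hH0 : 0 ≤ H)
    (hH : ∀ m, |((P.coeff m : ℤ) : ℝ)| ≤ H) (k : ℕ) : |(((kr d P).coeff k : ℤ) : ℝ)| ≤ H := by
  classical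
  by_cases hk : ∃ m ∈ P.support, kw d m = k
  · obtain ⟨m, hm, rfl⟩ := hk
    rw [kr_coeff d P hP m fun i => (MvPolynomial.degreeOf_le_iff.1 (hP i)) m hm]
    exact hH m
  · push Not at hk
    have : (kr d P).coeff k = 0 := by
      rw [kr_eq, finsetSum_coeff]
      refine Finset.sum_eq_zero fun m hm => ?_
      rw [coeff_C_mul, coeff_X_pow, if_neg (fun h => hk m hm h.symm), mul_zero]
    rw [this]; simpa using hH0

lemma kr_deg (d : ℕ) (P : MvPolynomial τ ℤ) (hP : ∀ i, P.degreeOf i ≤ d) :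
    (kr d P).natDegree ≤ (d + 1) ^ Fintype.card τ := by
  rw [kr_eq]
  refine natDegree_sum_le_of_forall_le _ _ fun m hm => ?_
  refine (natDegree_C_mul_X_pow_le _ _).trans ?_
  exact (kw_lt d m fun i => (MvPolynomial.degreeOf_le_iff.1 (hP i)) m hm).le

/-- **The height of a factor.** -/
theorem factor_height (d : ℕ) : ∃ C : ℝ, 1 ≤ C ∧ ∀ F G : MvPolynomial τ ℤ, F ≠ 0 → G ∣ F →
    (∀ i, F.degreeOf i ≤ d) → ∀ H : ℝ, 0 ≤ H → (∀ m, |((F.coeff m : ℤ) : ℝ)| ≤ H) →
    (∀ i, G.degreeOf i ≤ d) ∧ ∀ m, |((G.coeff m : ℤ) : ℝ)| ≤ C * H := by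
  classical
  obtain ⟨N, hN⟩ : ∃ N : ℕ, N = (d + 1) ^ Fintype.card τ := ⟨_, rfl⟩
  have h2N : (1 : ℝ) ≤ 2 ^ N := one_le_pow₀ (by norm_num)
  refine ⟨2 ^ N * (N + 1 : ℕ), ?_, fun F G hF hGF hFd H hH0 hFH => ?_⟩
  · have : (1 : ℝ) ≤ ((N + 1 : ℕ) : ℝ) := by exact_mod_cast Nat.succ_pos N
    exact one_le_mul_of_one_le_of_one_le h2N this
  obtain ⟨G', rfl⟩ := hGF
  have hG0 : G ≠ 0 := left_ne_zero_of_mul hF
  have hG'0 : G' ≠ 0 := right_ne_zero_of_mul hF
  have hdeg : ∀ i, G.degreeOf i + G'.degreeOf i ≤ d := fun i => by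
    have h := hFd i
    rwa [MvPolynomial.degreeOf_mul_eq hG0 hG'0] at h
  have hGd : ∀ i, G.degreeOf i ≤ d := fun i => by have := hdeg i; omega
  have hG'd : ∀ i, G'.degreeOf i ≤ d := fun i => by have := hdeg i; omega
  refine ⟨hGd, fun m => ?_⟩
  -- the Mahler measures
  set M : MvPolynomial τ ℤ → ℝ := fun P => ((kr d P).map (Int.castRingHom ℂ)).mahlerMeasure with hM
  have hM1 : 1 ≤ M G' := one_le_mahlerMeasure_of_ne_zero (kr_ne d G' hG'd hG'0)
  have hMG : 0 ≤ M G := mahlerMeasure_nonneg _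
  have hMmul : M (G * G') = M G * M G' := by
    simp only [hM]
    rw [map_mul, Polynomial.map_mul, mahlerMeasure_mul]
  have hMF : M (G * G') ≤ (N + 1 : ℕ) * H := by
    refine (mahlerMeasure_le_sum_norm_coeff _).trans ?_
    rw [Polynomial.sum_def]
    set F' := (kr d (G * G')).map (Int.castRingHom ℂ) with hF'
    have h2 : F'.natDegree ≤ N := by
      rw [hN]; exact natDegree_map_le.trans (kr_deg d _ hFd)
    have hsub : F'.support ⊆ Finset.range (N + 1) := fun i hi => by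
      rw [Finset.mem_range]
      have := le_natDegree_of_mem_supp i hi
      omega
    refine (Finset.sum_le_sum_of_subset_of_nonneg hsub fun _ _ _ => norm_nonneg _).trans ?_
    calc ∑ i ∈ Finset.range (N + 1), ‖F'.coeff i‖ ≤ ∑ _i ∈ Finset.range (N + 1), H := by
          refine Finset.sum_le_sum fun k _ => ?_
          rw [hF', coeff_map, eq_intCast, Complex.norm_intCast]
          exact kr_le d _ hFd H hH0 hFH k
      _ = _ := by rw [Finset.sum_const, Finset.card_range, nsmul_eq_mul]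
  have hMG2 : M G ≤ (N + 1 : ℕ) * H := by
    refine le_trans ?_ hMF
    rw [hMmul]
    exact le_mul_of_one_le_right hMG hM1
  by_cases hm : ∀ i, m i ≤ d
  · have h1 := norm_coeff_le_choose_mul_mahlerMeasure (kw d m) ((kr d G).map (Int.castRingHom ℂ))
    rw [coeff_map, kr_coeff d G hGd m hm, eq_intCast, Complex.norm_intCast] at h1
    refine h1.trans ?_
    have h2 : ((kr d G).map (Int.castRingHom ℂ)).natDegree ≤ N := by
      rw [hN]; exact natDegree_map_le.trans (kr_deg d _ hGd)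
    have h3 : ((((kr d G).map (Int.castRingHom ℂ)).natDegree.choose (kw d m) : ℕ) : ℝ) ≤ 2 ^ N := by
      exact_mod_cast (Nat.choose_le_two_pow _ _).trans (Nat.pow_le_pow_right (by norm_num) h2)
    calc _ ≤ 2 ^ N * M G := mul_le_mul_of_nonneg_right h3 hMG
      _ ≤ 2 ^ N * ((N + 1 : ℕ) * H) := mul_le_mul_of_nonneg_left hMG2 (by positivity)
      _ = _ := by ring
  · have : G.coeff m = 0 := by
      by_contra hne
      exact hm fun i => (MvPolynomial.degreeOf_le_iff.1 (hGd i)) m (MvPolynomial.mem_support_iff.2 hne)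
    rw [this]
    simp only [Int.cast_zero, abs_zero]
    positivity

end kron

end Pool.Agent.H596.Q
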