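import Pool.Agent.H596.Q.PA
import Pool.Agent.H596.Q.Fac
import Pool.Graph.R_seed8.TH456.TM.Inst

/-!
# Two polynomials in a number with a transcendence measure and exponentials
-/

set_option autoImplicit false

namespace Pool.Agent.H596.Q

open Polynomial
open Pool.Agent.TH456.TM (MeasT)

lemma meas_nat (t : ℂ) (ht : MeasT t) (d : ℕ) : ∃ κ : ℕ, ∃ c : ℝ, 0 < c ∧
    ∀ P : ℤ[X], P ≠ 0 → P.natDegree ≤ d → ∀ H : ℝ, 1 ≤ H → (∀ j, |(P.coeff j : ℝ)| ≤ H) →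
      c ≤ H ^ κ * ‖aeval t P‖ := by
  obtain ⟨κ, c, hκ, hc, h⟩ := ht d
  refine ⟨⌈κ⌉₊, c, hc, fun P hP hPd H hH hPH => ?_⟩
  refine (h P hP hPd H hH hPH).trans (mul_le_mul_of_nonneg_right ?_ (norm_nonneg _))
  rw [← Real.rpow_natCast]
  exact Real.rpow_le_rpow_of_exponent_le hH (Nat.le_ceil κ)

/-- a polynomial which depends on `none` only -/
lemma univ {σ : Type*} [Fintype σ] (D : MvPolynomial (Option σ) ℤ)
    (hD : ∀ i, D.degreeOf (some i) = 0) :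
    ∃ A : ℤ[X], (D ≠ 0 → A ≠ 0) ∧ A.natDegree ≤ D.degreeOf none ∧
      (∀ k, ∃ m, A.coeff k = D.coeff m) ∧ ∀ (t : ℂ) (α : σ → ℂ), ev t α D = aeval t A := by
  classical
  have hsupp : ∀ m ∈ D.support, m = Finsupp.single none (m none) := by
    intro m hm
    ext o
    rcases o with _ | i
    · simp
    · have := (MvPolynomial.degreeOf_le_iff.1 (hD i).le) m hm
      simpa using this
  obtain ⟨A, hA⟩ : ∃ A : ℤ[X], A = ∑ m ∈ D.support, C (D.coeff m) * X ^ (m none) := ⟨_, rfl⟩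
  have hcoeff : ∀ k, A.coeff k = D.coeff (Finsupp.single none k) := by
    intro k
    rw [hA, finsetSum_coeff]
    simp only [coeff_C_mul, coeff_X_pow]
    rw [Finset.sum_congr rfl (g := fun m => if m = Finsupp.single none k then D.coeff m else 0)
      (fun m hm => by
        by_cases h : m = Finsupp.single none k
        · rw [if_pos h, if_pos (by rw [h]; simp), mul_one]
        · rw [if_neg h, if_neg (fun h' => h (by rw [hsupp m hm, ← h'])), mul_zero])]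
    rw [Finset.sum_ite_eq']
    split_ifs with h
    · rfl
    · exact (MvPolynomial.notMem_support_iff.1 h).symm
  refine ⟨A, fun hD0 h0 => hD0 ?_, ?_, fun k => ⟨_, hcoeff k⟩, fun t α => ?_⟩
  · ext m
    rw [MvPolynomial.coeff_zero]
    by_contra hne
    have hm := MvPolynomial.mem_support_iff.2 hne
    apply hne
    rw [hsupp m hm, ← hcoeff, h0, coeff_zero]
  · rw [hA]
    refine natDegree_sum_le_of_forall_le _ _ fun m hm => ?_
    refine (natDegree_C_mul_X_pow_le _ _).trans ?_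
    exact (MvPolynomial.degreeOf_le_iff.1 le_rfl) m hm
  · rw [ev, hA, map_sum]
    conv_lhs => rw [MvPolynomial.as_sum D]
    rw [map_sum]
    refine Finset.sum_congr rfl fun m hm => ?_
    rw [MvPolynomial.aeval_monomial, map_mul, map_pow, aeval_X, aeval_C, hsupp m hm,
      Finsupp.prod_single_index (by simp)]
    simp

/-- **Two polynomials whose common divisors depend on the first variable only.** -/
theorem partF {σ : Type*} [Fintype σ] (t : ℂ) (ht : MeasT t) (α : σ → ℂ)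
    (hα : ∀ i, IsAlgebraic ℚ (α i)) (hli : LinearIndependent ℚ α) (d : ℕ) :
    ∃ κ : ℕ, ∃ c : ℝ, 0 < c ∧ ∀ P Q : MvPolynomial (Option σ) ℤ, P ≠ 0 → Q ≠ 0 →
      (∀ o, P.degreeOf o ≤ d) → (∀ o, Q.degreeOf o ≤ d) →
      (∀ D, D ∣ P → D ∣ Q → ∀ i, D.degreeOf (some i) = 0) → ∀ H : ℝ, 1 ≤ H →
      (∀ m, |((P.coeff m : ℤ) : ℝ)| ≤ H) → (∀ m, |((Q.coeff m : ℤ) : ℝ)| ≤ H) →
      c ≤ H ^ κ * max ‖ev t α P‖ ‖ev t α Q‖ := by
  classical
  obtain ⟨κ₁, c₁, hc₁, h₁⟩ := meas_nat t ht d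
  obtain ⟨κ₂, c₂, hc₂, h₂⟩ := partA α hα hli d ‖t‖
  obtain ⟨B, hB, hfac⟩ := factor_height (τ := Option σ) d
  refine ⟨κ₁ + κ₂, c₁ * c₂ / B ^ (κ₁ + κ₂), by positivity,
    fun P Q hP hQ hPd hQd hPQ H hH hPH hQH => ?_⟩
  have hH0 : 0 ≤ H := by linarith
  let inst : GCDMonoid (MvPolynomial (Option σ) ℤ) := UniqueFactorizationMonoid.toGCDMonoid _
  obtain ⟨D, hD⟩ : ∃ D, D = gcd P Q := ⟨_, rfl⟩
  have hDP : D ∣ P := by rw [hD]; exact gcd_dvd_left _ _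
  have hDQ : D ∣ Q := by rw [hD]; exact gcd_dvd_right _ _
  obtain ⟨P', hP'⟩ := hDP
  obtain ⟨Q', hQ'⟩ := hDQ
  have hD0 : D ≠ 0 := fun h0 => hP (by rw [hP', h0, zero_mul])
  have hrel : ∀ F, F ∣ P' → F ∣ Q' → F.degreeOf none = 0 := by
    intro F h3 h4
    have h5 : D * F ∣ D := by
      have h6 : D * F ∣ gcd P Q := dvd_gcd (by rw [hP']; exact mul_dvd_mul_left _ h3)
        (by rw [hQ']; exact mul_dvd_mul_left _ h4)
      rwa [← hD] at h6
    obtain ⟨G, hG⟩ := h5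
    have h7 : F * G = 1 := by
      have h8 : D * (F * G) = D * 1 := by rw [mul_one, ← mul_assoc]; exact hG.symm
      exact mul_left_cancel₀ hD0 h8
    have hF0 : F ≠ 0 := left_ne_zero_of_mul (by rw [h7]; exact one_ne_zero)
    have hG0 : G ≠ 0 := right_ne_zero_of_mul (by rw [h7]; exact one_ne_zero)
    have h9 := MvPolynomial.degreeOf_mul_eq (n := none) hF0 hG0
    rw [h7, MvPolynomial.degreeOf_one] at h9
    omega
  obtain ⟨A, hA0, hAd, hAc, hAv⟩ := univ D (hPQ D ⟨P', hP'⟩ ⟨Q', hQ'⟩)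
  obtain ⟨hDd, hDH⟩ := hfac P D hP ⟨P', hP'⟩ hPd H hH0 hPH
  obtain ⟨hP'd, hP'H⟩ := hfac P P' hP ⟨D, by rw [hP']; ring⟩ hPd H hH0 hPH
  obtain ⟨hQ'd, hQ'H⟩ := hfac Q Q' hQ ⟨D, by rw [hQ']; ring⟩ hQd H hH0 hQH
  have hBH : 1 ≤ B * H := one_le_mul_of_one_le_of_one_le hB hH
  have e1 := h₁ A (hA0 hD0) (hAd.trans (hDd none)) (B * H) hBH (fun j => by
    obtain ⟨m, hm⟩ := hAc j
    rw [hm]
    exact hDH m)
  have e2 := h₂ t le_rfl P' Q' hP'd hQ'd hrel (B * H) hBH hP'H hQ'H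
  rw [← hAv t α] at e1
  have e3 : max ‖ev t α P‖ ‖ev t α Q‖ = ‖ev t α D‖ * max ‖ev t α P'‖ ‖ev t α Q'‖ := by
    rw [hP', hQ', ev_mul, ev_mul, norm_mul, norm_mul, mul_max_of_nonneg _ _ (norm_nonneg _)]
  rw [e3, div_le_iff₀ (by positivity)]
  calc c₁ * c₂ ≤ ((B * H) ^ κ₁ * ‖ev t α D‖) * ((B * H) ^ κ₂ * max ‖ev t α P'‖ ‖ev t α Q'‖) :=
        mul_le_mul e1 e2 hc₂.le (hc₁.le.trans e1)
    _ = _ := by rw [mul_pow, mul_pow, pow_add, pow_add]; ring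

end Pool.Agent.H596.Q
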