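import Pool.Agent.H596.Q.Inv
import Pool.Graph.R_pool_sql_team_seeded_b0a926ef.R523.NearB

/-!
# The group ring of the additive group of a field, exponential sums, and the measure
-/

set_option autoImplicit false

namespace Pool.Agent.H596.Q

open AddMonoidAlgebra
open Pool.Agent.R356 (IsLen)

/-- the group ring -/
abbrev GR (K : Type*) [AddCommGroup K] : Type _ := AddMonoidAlgebra ℤ K

section len

variable {K : Type*} [AddCommGroup K]

/-- the length -/
noncomputable def L1 (x : GR K) : ℝ := ∑ γ ∈ x.coeff.support, |(x.coeff γ : ℝ)|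

lemma L1_eq (x : GR K) (S : Finset K) (hS : x.coeff.support ⊆ S) :
    L1 x = ∑ γ ∈ S, |(x.coeff γ : ℝ)| := by
  rw [L1]
  refine Finset.sum_subset hS fun γ _ h => ?_
  rw [Finsupp.notMem_support_iff.1 h]; simp

lemma L1_nonneg (x : GR K) : 0 ≤ L1 x := Finset.sum_nonneg fun _ _ => abs_nonneg _

lemma L1_zero : L1 (0 : GR K) = 0 := by simp [L1]

lemma L1_single (γ : K) (r : ℤ) : L1 (single γ r : GR K) = |(r : ℝ)| := by
  classical
  rw [L1_eq _ {γ} (by rw [coeff_single]; exact Finsupp.support_single_subset)]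
  simp

lemma L1_add (x y : GR K) : L1 (x + y) ≤ L1 x + L1 y := by
  classical
  rw [L1_eq (x + y) (x.coeff.support ∪ y.coeff.support) (by
      rw [coeff_add]; exact Finsupp.support_add),
    L1_eq x (x.coeff.support ∪ y.coeff.support) Finset.subset_union_left,
    L1_eq y (x.coeff.support ∪ y.coeff.support) Finset.subset_union_right,
    ← Finset.sum_add_distrib]
  refine Finset.sum_le_sum fun γ _ => ?_
  rw [coeff_add, Finsupp.add_apply, Int.cast_add]
  exact abs_add_le _ _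

lemma L1_sum {ι : Type*} (s : Finset ι) (f : ι → GR K) : L1 (∑ i ∈ s, f i) ≤ ∑ i ∈ s, L1 (f i) := by
  classical
  induction s using Finset.induction_on with
  | empty => simp [L1_zero]
  | insert a s ha ih =>
    rw [Finset.sum_insert ha, Finset.sum_insert ha]
    exact (L1_add _ _).trans (by linarith)

lemma L1_mul (x y : GR K) : L1 (x * y) ≤ L1 x * L1 y := by
  classical
  have h1 : x * y = ∑ a ∈ x.coeff.support, ∑ b ∈ y.coeff.support,
      single (a + b) (x.coeff a * y.coeff b) := by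
    rw [AddMonoidAlgebra.mul_def]; rfl
  rw [h1]
  refine (L1_sum _ _).trans ?_
  rw [L1, Finset.sum_mul]
  refine Finset.sum_le_sum fun a _ => ?_
  refine (L1_sum _ _).trans ?_
  rw [L1, Finset.mul_sum]
  refine Finset.sum_le_sum fun b _ => ?_
  rw [L1_single, Int.cast_mul, abs_mul]

lemma isLen_L1 : IsLen (L1 : GR K → ℝ) where
  nonneg := L1_nonneg
  zero := L1_zero
  one := by
    rw [AddMonoidAlgebra.one_def, L1_single]; simp
  neg := fun x => by
    classical
    rw [L1_eq (-x) x.coeff.support (by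
      intro γ hγ
      rw [Finsupp.mem_support_iff] at hγ ⊢
      intro h0
      apply hγ
      have : (-x).coeff γ = - x.coeff γ := by
        have := congrArg (fun z : GR K => z.coeff γ) (neg_add_cancel x)
        simp only [coeff_add, Finsupp.add_apply, coeff_zero, Finsupp.zero_apply] at this
        linarith
      rw [this, h0, neg_zero]), L1]
    refine Finset.sum_congr rfl fun γ _ => ?_
    have : (-x).coeff γ = - x.coeff γ := by
      have := congrArg (fun z : GR K => z.coeff γ) (neg_add_cancel x)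
      simp only [coeff_add, Finsupp.add_apply, coeff_zero, Finsupp.zero_apply] at this
      linarith
    rw [this, Int.cast_neg, abs_neg]
  add := L1_add
  mul := L1_mul

end len

section E

variable {K : Type*} [Field K]

/-- the exponential sums -/
noncomputable def E (v : K →+* ℂ) : GR K →+* ℂ :=
  ((AddMonoidAlgebra.lift ℤ ℂ K
    { toFun := fun γ => Complex.exp (v γ.toAdd)
      map_one' := by simp
      map_mul' := fun a b => by rw [toAdd_mul, map_add, Complex.exp_add] } : GR K →ₐ[ℤ] ℂ) :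
      GR K →+* ℂ)

lemma E_single (v : K →+* ℂ) (γ : K) (r : ℤ) : E v (single γ r) = r * Complex.exp (v γ) := by
  rw [E, RingHom.coe_coe, lift_single, zsmul_eq_mul]; rfl

lemma E_eq (v : K →+* ℂ) (x : GR K) (S : Finset K) (hS : x.coeff.support ⊆ S) :
    E v x = ∑ γ ∈ S, (x.coeff γ : ℂ) * Complex.exp (v γ) := by
  classical
  have h1 : x = ∑ γ ∈ S, single γ (x.coeff γ) := by
    conv_lhs => rw [← sum_coeff_single x]
    rw [Finsupp.sum]
    refine Finset.sum_subset hS fun γ _ h => ?_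
    rw [Finsupp.notMem_support_iff.1 h]; simp
  conv_lhs => rw [h1]
  rw [map_sum]
  exact Finset.sum_congr rfl fun γ _ => E_single v γ _

lemma E_le (v : K →+* ℂ) (x : GR K) (R : ℝ) (hR : ∀ γ ∈ x.coeff.support, ‖v γ‖ ≤ R) :
    ‖E v x‖ ≤ Real.exp R * L1 x := by
  rw [E_eq v x _ subset_rfl, L1, Finset.mul_sum]
  refine (norm_sum_le _ _).trans (Finset.sum_le_sum fun γ hγ => ?_)
  rw [norm_mul, Complex.norm_intCast, Complex.norm_exp, mul_comm]
  exact mul_le_mul_of_nonneg_right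
    (Real.exp_le_exp.2 ((Complex.re_le_norm _).trans (hR γ hγ))) (abs_nonneg _)

end E

section gal

variable {K : Type*} [Field K] [NumberField K]

instance : NoZeroDivisors (GR K) := inferInstance

/-- the action of the Galois group -/
noncomputable def act (σ : K ≃ₐ[ℚ] K) : GR K →+* GR K :=
  mapDomainRingHom ℤ (σ : K →+ K)

lemma act_apply (σ : K ≃ₐ[ℚ] K) (x : GR K) : act σ x = mapDomain σ x := rfl

lemma act_coeff (σ : K ≃ₐ[ℚ] K) (x : GR K) (γ : K) : (act σ x).coeff (σ γ) = x.coeff γ := by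
  rw [act_apply, mapDomain, coeff_ofCoeff]
  exact Finsupp.mapDomain_apply σ.injective _ _

lemma act_act (σ τ : K ≃ₐ[ℚ] K) (x : GR K) : act σ (act τ x) = act (σ * τ) x := by
  ext γ
  obtain ⟨δ, rfl⟩ := (σ * τ).surjective γ
  rw [act_coeff, AlgEquiv.mul_apply, act_coeff, act_coeff]

lemma act_ne (σ : K ≃ₐ[ℚ] K) (x : GR K) (hx : x ≠ 0) : act σ x ≠ 0 := by
  intro h0
  apply hx
  ext γ
  rw [← act_coeff σ x γ, h0]; rfl

lemma act_support [DecidableEq K] (σ : K ≃ₐ[ℚ] K) (x : GR K) :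
    (act σ x).coeff.support ⊆ x.coeff.support.image σ := by
  intro γ hγ
  obtain ⟨δ, rfl⟩ := σ.surjective γ
  rw [Finsupp.mem_support_iff, act_coeff] at hγ
  exact Finset.mem_image_of_mem _ (Finsupp.mem_support_iff.2 hγ)

lemma L1_act (σ : K ≃ₐ[ℚ] K) (x : GR K) : L1 (act σ x) ≤ L1 x := by
  classical
  rw [L1_eq _ _ (act_support σ x), Finset.sum_image (fun a _ b _ h => σ.injective h), L1]
  refine (Finset.sum_congr rfl fun γ _ => ?_).le
  rw [act_coeff]

/-- the norm -/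
noncomputable def nm (x : GR K) : GR K := ∏ σ : K ≃ₐ[ℚ] K, act σ x

lemma nm_ne (x : GR K) (hx : x ≠ 0) : nm x ≠ 0 :=
  Finset.prod_ne_zero_iff.2 fun σ _ => act_ne σ x hx

lemma act_nm (τ : K ≃ₐ[ℚ] K) (x : GR K) : act τ (nm x) = nm x := by
  rw [nm, map_prod]
  refine Fintype.prod_equiv (Equiv.mulLeft τ) _ _ fun σ => ?_
  rw [act_act]; rfl

lemma support_prod [DecidableEq K] {ι : Type*} (s : Finset ι) (S : ι → Finset K) :
    ∃ S' : Finset K, ∀ f : ι → GR K, (∀ i ∈ s, (f i).coeff.support ⊆ S i) →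
      (∏ i ∈ s, f i).coeff.support ⊆ S' := by
  classical
  induction s using Finset.induction_on with
  | empty =>
    refine ⟨{0}, fun f _ => ?_⟩
    rw [Finset.prod_empty, AddMonoidAlgebra.one_def, coeff_single]
    exact Finsupp.support_single_subset
  | insert a s ha ih =>
    obtain ⟨S', hS'⟩ := ih
    refine ⟨Finset.image₂ (· + ·) (S a) S', fun f hf => ?_⟩
    rw [Finset.prod_insert ha]
    refine (support_coeff_mul_subset _ _).trans ?_
    exact Finset.image₂_subset (hf a (Finset.mem_insert_self _ _))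
      (hS' f fun i hi => hf i (Finset.mem_insert_of_mem hi))

/-- **A quantitative form of the theorem of Lindemann and Weierstrass.** -/
theorem qlw [IsGalois ℚ K] (v : K →+* ℂ) (S : Finset K) : ∃ κ : ℕ, ∃ c : ℝ, 0 < c ∧
    ∀ x : GR K, x ≠ 0 → x.coeff.support ⊆ S → ∀ H : ℝ, 1 ≤ H → L1 x ≤ H →
      c ≤ H ^ κ * ‖E v x‖ := by
  classical
  obtain ⟨S₁, hS₁⟩ := support_prod (Finset.univ : Finset (K ≃ₐ[ℚ] K)) (fun σ => S.image σ)
  obtain ⟨S₂, hS₂⟩ : ∃ S₂ : Finset K, S₂ = Finset.univ.biUnion fun σ : K ≃ₐ[ℚ] K => S₁.image σ :=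
    ⟨_, rfl⟩
  have hS₂' : ∀ σ : K ≃ₐ[ℚ] K, ∀ γ ∈ S₂, σ γ ∈ S₂ := by
    intro σ γ hγ
    rw [hS₂, Finset.mem_biUnion] at hγ ⊢
    obtain ⟨τ, -, h⟩ := hγ
    obtain ⟨δ, hδ, rfl⟩ := Finset.mem_image.1 h
    exact ⟨σ * τ, Finset.mem_univ _, Finset.mem_image.2 ⟨δ, hδ, rfl⟩⟩
  have hS₁₂ : S₁ ⊆ S₂ := by
    intro γ hγ
    rw [hS₂, Finset.mem_biUnion]
    exact ⟨1, Finset.mem_univ _, Finset.mem_image.2 ⟨γ, hγ, rfl⟩⟩
  obtain ⟨κ, c, hc, h⟩ := inv_meas v S₂ hS₂'
  obtain ⟨R, hR⟩ : ∃ R : ℝ, R = ∑ σ : K ≃ₐ[ℚ] K, ∑ γ ∈ S, ‖v (σ γ)‖ := ⟨_, rfl⟩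
  have hRγ : ∀ σ : K ≃ₐ[ℚ] K, ∀ γ ∈ S.image σ, ‖v γ‖ ≤ R := by
    intro σ γ hγ
    obtain ⟨δ, hδ, rfl⟩ := Finset.mem_image.1 hγ
    rw [hR]
    exact (Finset.single_le_sum (f := fun γ => ‖v (σ γ)‖) (fun _ _ => norm_nonneg _) hδ).trans
      (Finset.single_le_sum (f := fun σ : K ≃ₐ[ℚ] K => ∑ γ ∈ S, ‖v (σ γ)‖)
        (fun _ _ => Finset.sum_nonneg fun _ _ => norm_nonneg _) (Finset.mem_univ σ))
  obtain ⟨D, hD⟩ : ∃ D : ℕ, D = Fintype.card (K ≃ₐ[ℚ] K) := ⟨_, rfl⟩
  have hD0 : 0 < D := by rw [hD]; exact Fintype.card_pos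
  refine ⟨D * κ + (D - 1), c / Real.exp R ^ (D - 1), by positivity, fun x hx hxS H hH hxH => ?_⟩
  have hH0 : 0 ≤ H := by linarith
  have hsupp : (nm x).coeff.support ⊆ S₂ := (hS₁ (fun σ => act σ x) fun σ _ =>
    (act_support σ x).trans (Finset.image_subset_image hxS)).trans hS₁₂
  have hL : L1 (nm x) ≤ H ^ D := by
    rw [nm]
    refine (isLen_L1.prod _ _).trans ?_
    calc ∏ σ : K ≃ₐ[ℚ] K, L1 (act σ x) ≤ ∏ _σ : K ≃ₐ[ℚ] K, H :=
          Finset.prod_le_prod (fun _ _ => L1_nonneg _) fun σ _ => (L1_act σ x).trans hxH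
      _ = H ^ D := by rw [Finset.prod_const, Finset.card_univ, hD]
  have h1 := h (fun γ => (nm x).coeff γ) (fun σ γ => by
      have := act_coeff σ (nm x) γ
      rwa [act_nm] at this) (by
      have h2 := nm_ne x hx
      by_contra hcon
      push Not at hcon
      apply h2
      ext γ
      by_cases hγ : γ ∈ (nm x).coeff.support
      · exact hcon γ (hsupp hγ)
      · exact Finsupp.notMem_support_iff.1 hγ) (H ^ D) (one_le_pow₀ hH) (by
      rw [← L1_eq (nm x) S₂ hsupp]; exact hL)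
  rw [← E_eq v (nm x) S₂ hsupp] at h1
  have h3 : ‖E v (nm x)‖ ≤ ‖E v x‖ * (Real.exp R * H) ^ (D - 1) := by
    rw [nm, map_prod, norm_prod, ← Finset.mul_prod_erase _ _ (Finset.mem_univ (1 : K ≃ₐ[ℚ] K))]
    have h4 : act (1 : K ≃ₐ[ℚ] K) x = x := by
      ext γ
      have := act_coeff (1 : K ≃ₐ[ℚ] K) x γ
      simpa using this
    rw [h4]
    refine mul_le_mul_of_nonneg_left ?_ (norm_nonneg _)
    calc ∏ σ ∈ Finset.univ.erase (1 : K ≃ₐ[ℚ] K), ‖E v (act σ x)‖ ≤
          ∏ _σ ∈ Finset.univ.erase (1 : K ≃ₐ[ℚ] K), (Real.exp R * H) := by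
          refine Finset.prod_le_prod (fun _ _ => norm_nonneg _) fun σ _ => ?_
          refine (E_le v (act σ x) R fun γ hγ => hRγ σ γ
            (Finset.image_subset_image hxS (act_support σ x hγ))).trans ?_
          exact mul_le_mul_of_nonneg_left ((L1_act σ x).trans hxH) (Real.exp_pos _).le
      _ = _ := by
          rw [Finset.prod_const, Finset.card_erase_of_mem (Finset.mem_univ _), Finset.card_univ, hD]
  rw [div_le_iff₀ (by positivity)]
  calc c ≤ (H ^ D) ^ κ * ‖E v (nm x)‖ := h1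
    _ ≤ (H ^ D) ^ κ * (‖E v x‖ * (Real.exp R * H) ^ (D - 1)) :=
        mul_le_mul_of_nonneg_left h3 (by positivity)
    _ = _ := by rw [← pow_mul, mul_pow, pow_add]; ring

end gal

end Pool.Agent.H596.Q
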