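import Mathlib

/-!
# The choice of the prime number
-/

set_option autoImplicit false

namespace Pool.Agent.H596.Q

open Filter

lemma self_pow_le (n : ℕ) : n ^ n ≤ n.factorial ^ 2 := by
  have h1 : n.factorial ^ 2 = ∏ i ∈ Finset.range n, ((i + 1) * (n - i)) := by
    rw [Finset.prod_mul_distrib, pow_two]
    congr 1
    · exact (Finset.prod_range_add_one_eq_factorial n).symm
    · rw [← Finset.prod_range_reflect, ← Finset.prod_range_add_one_eq_factorial n]
      refine Finset.prod_congr rfl fun i hi => ?_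
      rw [Finset.mem_range] at hi
      omega
  rw [h1]
  calc n ^ n = ∏ _i ∈ Finset.range n, n := by simp
    _ ≤ _ := by
      refine Finset.prod_le_prod' fun i hi => ?_
      rw [Finset.mem_range] at hi
      obtain ⟨k, hk⟩ : ∃ k, n = i + 1 + k := ⟨n - (i + 1), by omega⟩
      subst hk
      have : i + 1 + k - i = 1 + k := by omega
      rw [this]
      nlinarith [Nat.zero_le (i * k)]

lemma fac_large (D : ℝ) (ε : ℝ) (hε : 0 < ε) : ∃ n₀ : ℕ, ∀ n, n₀ ≤ n →
    D ^ n ≤ ε * n.factorial := by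
  have h := FloorSemiring.tendsto_pow_div_factorial_atTop D
  have h2 := h.eventually (gt_mem_nhds hε)
  obtain ⟨n₀, hn₀⟩ := eventually_atTop.1 h2
  refine ⟨n₀, fun n hn => ?_⟩
  have h3 := hn₀ n hn
  rw [div_lt_iff₀ (by positivity)] at h3
  exact h3.le

lemma choice (m D p₀ : ℕ) (hD : 1 ≤ D) (hm : 1 ≤ m) : ∃ κ : ℕ, ∃ c : ℝ, 0 < c ∧
    ∀ H e : ℝ, 1 ≤ H → 0 ≤ e →
    (∀ p : ℕ, p.Prime → p₀ < p → ((p - 1).factorial : ℝ) ≤
      (m * p).factorial * D ^ p * e + H * D ^ (p + 1)) → c ≤ H ^ κ * e := by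
  have hDR : (1 : ℝ) ≤ D := by exact_mod_cast hD
  obtain ⟨n₁, hn₁⟩ := fac_large ((D : ℝ) ^ 2) (1 / D ^ 4) (by positivity)
  obtain ⟨n₀, hn₀⟩ : ∃ n₀ : ℕ, n₀ = n₁ + p₀ + D + 2 * m + 2 := ⟨_, rfl⟩
  have hkey : ∀ k : ℕ, n₀ ≤ k → (D : ℝ) ^ (2 * (k + 2)) ≤ k.factorial := by
    intro k hk
    have h1 := hn₁ k (by omega)
    rw [one_div, inv_mul_eq_div, le_div_iff₀ (by positivity)] at h1
    calc (D : ℝ) ^ (2 * (k + 2)) = (D ^ 2) ^ k * D ^ 4 := by ring
      _ ≤ _ := h1
  refine ⟨2 * (24 * m + 2), 1 / (2 * (m * (2 * n₀)).factorial * D ^ (2 * n₀)) / 4 ^ (24 * m + 2),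
    by positivity, fun H e hH he hyp => ?_⟩
  -- the first suitable number
  have hex : ∃ n : ℕ, n₀ ≤ n ∧ 2 * H * D ^ (n + 2) ≤ n.factorial := by
    obtain ⟨n₂, hn₂⟩ := fac_large (D : ℝ) (1 / (2 * H * D ^ 2)) (by positivity)
    refine ⟨n₀ + n₂, by omega, ?_⟩
    have h1 := hn₂ (n₀ + n₂) (by omega)
    rw [one_div, inv_mul_eq_div, le_div_iff₀ (by positivity)] at h1
    calc 2 * H * (D : ℝ) ^ (n₀ + n₂ + 2) = D ^ (n₀ + n₂) * (2 * H * D ^ 2) := by ring
      _ ≤ _ := h1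
  classical
  obtain ⟨n, hn, hmin⟩ : ∃ n : ℕ, (n₀ ≤ n ∧ 2 * H * (D : ℝ) ^ (n + 2) ≤ n.factorial) ∧
      ∀ k, k < n → ¬ (n₀ ≤ k ∧ 2 * H * (D : ℝ) ^ (k + 2) ≤ k.factorial) :=
    ⟨Nat.find hex, Nat.find_spec hex, fun k hk => Nat.find_min hex hk⟩
  obtain ⟨p, hp, hp1, hp2⟩ := Nat.exists_prime_lt_and_le_two_mul n (by omega)
  have h1 := hyp p hp (by omega)
  have h2 : 2 * H * (D : ℝ) ^ (p + 1) ≤ (p - 1).factorial := by
    obtain ⟨j, hj⟩ : ∃ j, p - 1 = n + j := ⟨p - 1 - n, by omega⟩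
    have h3 : (n.factorial : ℝ) * D ^ j ≤ (n + j).factorial := by
      have h4 : n.factorial * n ^ j ≤ (n + j).factorial :=
        (Nat.mul_le_mul_left _ (Nat.pow_le_pow_left (Nat.le_succ n) _)).trans
          Nat.factorial_mul_pow_le_factorial
      have h5 : n.factorial * D ^ j ≤ n.factorial * n ^ j :=
        Nat.mul_le_mul_left _ (Nat.pow_le_pow_left (by omega) _)
      exact_mod_cast h5.trans h4
    rw [hj]
    refine le_trans ?_ h3
    have h6 : p + 1 = (n + 2) + j := by omega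
    rw [h6, pow_add, ← mul_assoc]
    exact mul_le_mul_of_nonneg_right hn.2 (by positivity)
  have h3 : (1 : ℝ) ≤ (p - 1).factorial := by exact_mod_cast Nat.one_le_iff_ne_zero.2 (Nat.factorial_ne_zero _)
  have h4 : (1 : ℝ) ≤ 2 * (m * (2 * n)).factorial * D ^ (2 * n) * e := by
    have h5 : ((p - 1).factorial : ℝ) ≤ 2 * ((m * p).factorial * D ^ p * e) := by linarith
    have h6 : ((m * p).factorial : ℝ) ≤ (m * (2 * n)).factorial := by
      exact_mod_cast Nat.factorial_le (Nat.mul_le_mul_left _ hp2)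
    have h7 : (D : ℝ) ^ p ≤ D ^ (2 * n) := pow_le_pow_right₀ hDR hp2
    calc (1 : ℝ) ≤ 2 * ((m * p).factorial * D ^ p * e) := h3.trans h5
      _ ≤ 2 * ((m * (2 * n)).factorial * D ^ (2 * n) * e) := by gcongr
      _ = _ := by ring
  have hfin : ∀ X : ℝ, 0 < X → 2 * (m * (2 * n)).factorial * (D : ℝ) ^ (2 * n) ≤ X →
      1 / X ≤ e := by
    intro X hX h
    rw [div_le_iff₀ hX, mul_comm]
    exact h4.trans (mul_le_mul_of_nonneg_right h he)
  rcases Nat.eq_or_lt_of_le hn.1 with h5 | h5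
  · rw [← h5] at hfin
    have h6 := hfin _ (by positivity) le_rfl
    have h7 : 1 / (2 * (m * (2 * n₀)).factorial * (D : ℝ) ^ (2 * n₀)) / 4 ^ (24 * m + 2) ≤
        1 / (2 * (m * (2 * n₀)).factorial * (D : ℝ) ^ (2 * n₀)) :=
      div_le_self (by positivity) (one_le_pow₀ (by norm_num))
    calc _ ≤ 1 / (2 * (m * (2 * n₀)).factorial * (D : ℝ) ^ (2 * n₀)) := h7
      _ ≤ e := h6
      _ ≤ _ := le_mul_of_one_le_left he (one_le_pow₀ hH)
  · obtain ⟨k, hk⟩ : ∃ k, n = k + 1 := ⟨n - 1, by omega⟩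
    subst hk
    have h6 : (k.factorial : ℝ) < 2 * H * D ^ (k + 2) := by
      have := hmin k (Nat.lt_succ_self k)
      push Not at this
      exact this (by omega)
    have h7 : (k.factorial : ℝ) ≤ 4 * H ^ 2 := by
      have h8 := hkey k (by omega)
      have h9 : (0 : ℝ) < k.factorial := by positivity
      have h10 : (k.factorial : ℝ) * k.factorial ≤ (4 * H ^ 2) * k.factorial := by
        calc (k.factorial : ℝ) * k.factorial ≤ (2 * H * D ^ (k + 2)) * (2 * H * D ^ (k + 2)) :=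
              mul_le_mul h6.le h6.le h9.le (by positivity)
          _ = 4 * H ^ 2 * (D : ℝ) ^ (2 * (k + 2)) := by ring
          _ ≤ _ := by gcongr
      exact le_of_mul_le_mul_right h10 h9
    have h8 : 2 * (m * (2 * (k + 1))).factorial * (D : ℝ) ^ (2 * (k + 1)) ≤
        (k.factorial : ℝ) ^ (24 * m + 2) := by
      have h9 : (D : ℝ) ^ (2 * (k + 1)) ≤ k.factorial :=
        (pow_le_pow_right₀ hDR (by omega)).trans (hkey k (by omega))
      have h10 : (2 : ℝ) ≤ k.factorial := by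
        exact_mod_cast (show 2 ≤ k by omega).trans (Nat.self_le_factorial k)
      have h11 : (m * (2 * (k + 1))).factorial ≤ k.factorial ^ (24 * m) := by
        have hk2 : 2 * m ≤ k := by omega
        have hk3 : 2 ≤ k := by omega
        have e1 : m * (2 * (k + 1)) ≤ k ^ 3 := by
          calc m * (2 * (k + 1)) = (2 * m) * (k + 1) := by ring
            _ ≤ k * (k ^ 2) := Nat.mul_le_mul hk2 (by nlinarith)
            _ = k ^ 3 := by ring
        have e2 : m * (2 * (k + 1)) ≤ 4 * m * k := by nlinarith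
        calc (m * (2 * (k + 1))).factorial ≤ (m * (2 * (k + 1))) ^ (m * (2 * (k + 1))) :=
              Nat.factorial_le_pow _
          _ ≤ (k ^ 3) ^ (m * (2 * (k + 1))) := Nat.pow_le_pow_left e1 _
          _ ≤ (k ^ 3) ^ (4 * m * k) := Nat.pow_le_pow_right (by positivity) e2
          _ = (k ^ k) ^ (12 * m) := by rw [← pow_mul, ← pow_mul]; congr 1; ring
          _ ≤ (k.factorial ^ 2) ^ (12 * m) := Nat.pow_le_pow_left (self_pow_le k) _
          _ = k.factorial ^ (24 * m) := by rw [← pow_mul]; congr 1; ring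
      have h12 : ((m * (2 * (k + 1))).factorial : ℝ) ≤ (k.factorial : ℝ) ^ (24 * m) := by
        exact_mod_cast h11
      calc 2 * (m * (2 * (k + 1))).factorial * (D : ℝ) ^ (2 * (k + 1)) ≤
            k.factorial * (k.factorial : ℝ) ^ (24 * m) * k.factorial := by gcongr
        _ = _ := by ring
    have h9 := hfin _ (by positivity) h8
    have h10 : 1 / ((4 * H ^ 2) ^ (24 * m + 2)) ≤ e := by
      refine le_trans ?_ h9
      exact one_div_le_one_div_of_le (by positivity) (pow_le_pow_left₀ (by positivity) h7 _)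
    have h11 : 1 / (2 * (m * (2 * n₀)).factorial * (D : ℝ) ^ (2 * n₀)) ≤ 1 := by
      rw [div_le_one (by positivity)]
      have : (1 : ℝ) ≤ (m * (2 * n₀)).factorial := by
        exact_mod_cast Nat.one_le_iff_ne_zero.2 (Nat.factorial_ne_zero _)
      have h12 : (1 : ℝ) ≤ D ^ (2 * n₀) := one_le_pow₀ hDR
      nlinarith
    calc _ ≤ 1 / 4 ^ (24 * m + 2) := by gcongr
      _ = H ^ (2 * (24 * m + 2)) * (1 / ((4 * H ^ 2) ^ (24 * m + 2))) := by
        rw [mul_pow, ← pow_mul]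
        have : H ^ (2 * (24 * m + 2)) ≠ 0 := by positivity
        field_simp
      _ ≤ _ := by gcongr

end Pool.Agent.H596.Q
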