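import Pool.Agent.H596.Q.Ari
import Pool.Agent.H596.Q.Num

/-!
# The measure for Galois invariant exponential sums
-/

set_option autoImplicit false

namespace Pool.Agent.H596.Q

open Polynomial NumberField

variable {K : Type*} [Field K] [NumberField K] [DecidableEq K]

omit [DecidableEq K] in
lemma exists_denom (S : Finset K) : ∃ a : ℕ, 0 < a ∧ ∃ g : K → 𝓞 K,
    ∀ γ ∈ S, algebraMap (𝓞 K) K (g γ) = a * γ := by
  classical
  have h1 : ∀ γ : K, ∃ a : ℕ, 0 < a ∧ IsIntegral ℤ ((a : K) * γ) := by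
    intro γ
    have hγ : IsAlgebraic ℤ γ := by
      rw [IsFractionRing.isAlgebraic_iff ℤ ℚ K]
      exact Algebra.IsAlgebraic.isAlgebraic γ
    obtain ⟨y, hy, h⟩ := hγ.exists_integral_multiple
    refine ⟨y.natAbs, Int.natAbs_pos.2 hy, ?_⟩
    rcases Int.natAbs_eq y with h2 | h2
    · rw [h2] at h
      simpa [zsmul_eq_mul] using h
    · rw [h2] at h
      have := h.neg
      simpa [zsmul_eq_mul] using this
  choose a ha hint using h1
  refine ⟨∏ γ ∈ S, a γ, Finset.prod_pos fun γ _ => ha γ, fun γ =>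
    if h : IsIntegral ℤ (((∏ γ ∈ S, a γ : ℕ) : K) * γ) then ⟨_, h⟩ else 0, fun γ hγ => ?_⟩
  have h : IsIntegral ℤ (((∏ γ ∈ S, a γ : ℕ) : K) * γ) := by
    rw [← Finset.mul_prod_erase S a hγ, Nat.cast_mul, mul_comm (a γ : K), mul_assoc]
    refine IsIntegral.mul ?_ (hint γ)
    have := isIntegral_algebraMap (R := ℤ) (A := K) (x := ((∏ x ∈ S.erase γ, a x : ℕ) : ℤ))
    simpa using this
  simp only [dif_pos h]
  rfl

/-- the estimate for one prime number -/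
lemma one_prime [IsGalois ℚ K] (v : K →+* ℂ) (S : Finset K)
    (hS : ∀ σ : K ≃ₐ[ℚ] K, ∀ γ ∈ S, σ γ ∈ S) : ∃ D p₀ : ℕ, 1 ≤ D ∧
    ∀ b : K → ℤ, (∀ σ : K ≃ₐ[ℚ] K, ∀ γ, b (σ γ) = b γ) → ∀ H : ℝ,
      ∑ γ ∈ S, |(b γ : ℝ)| ≤ H → ∀ p : ℕ, p.Prime → p₀ < p → (∃ k ∈ S, ¬ (p : ℤ) ∣ b k) →
      ((p - 1).factorial : ℝ) ≤ (S.card * p).factorial * D ^ p *
        ‖∑ γ ∈ S, (b γ : ℂ) * Complex.exp (v γ)‖ + H * D ^ (p + 1) := by
  classical
  obtain ⟨a, ha, g, hg⟩ := exists_denom S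
  obtain ⟨R, hR⟩ : ∃ R : ℝ, R = ∑ γ ∈ S, ‖v γ‖ := ⟨_, rfl⟩
  have hR0 : 0 ≤ R := by rw [hR]; positivity
  have hRγ : ∀ γ ∈ S, ‖v γ‖ ≤ R := fun γ hγ => by
    rw [hR]; exact Finset.single_le_sum (f := fun γ => ‖v γ‖) (fun _ _ => norm_nonneg _) hγ
  have ha1 : (1 : ℝ) ≤ a := by exact_mod_cast ha
  obtain ⟨A, hA⟩ : ∃ A : ℝ, A = a * (R + 1) := ⟨_, rfl⟩
  have hA1 : 1 ≤ A := by rw [hA]; nlinarith
  obtain ⟨E0, hE0⟩ : ∃ E0 : ℝ, E0 = Real.exp R * (R * Real.exp R) := ⟨_, rfl⟩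
  have hE00 : 0 ≤ E0 := by rw [hE0]; positivity
  obtain ⟨D, hD⟩ : ∃ D : ℕ, D = ⌈(2 * A * a) ^ S.card + (A * (R + 1) * a) ^ S.card + E0 + 1⌉₊ :=
    ⟨_, rfl⟩
  have hD' : (2 * A * a) ^ S.card + (A * (R + 1) * a) ^ S.card + E0 + 1 ≤ (D : ℝ) := by
    rw [hD]; exact Nat.le_ceil _
  have hx1 : 0 ≤ (2 * A * a) ^ S.card := by positivity
  have hx2 : 0 ≤ (A * (R + 1) * a) ^ S.card := by positivity
  have hD1 : (1 : ℝ) ≤ D := by linarith
  refine ⟨D, a + ∑ k ∈ S, ∑ l ∈ S, (Algebra.norm ℤ (g k - g l)).natAbs, by exact_mod_cast hD1,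
    fun b hb H hH p hp hp0 ⟨k, hk, hbk⟩ => ?_⟩
  have hpa : ¬ p ∣ a := fun h => by
    have := Nat.le_of_dvd ha h
    omega
  have hpN : ∀ k ∈ S, ∀ l ∈ S, k ≠ l → ¬ (p : ℤ) ∣ Algebra.norm ℤ (g k - g l) := by
    intro k hk l hl hkl h
    have h0 : Algebra.norm ℤ (g k - g l) ≠ 0 := by
      rw [Algebra.norm_ne_zero_iff, sub_ne_zero]
      intro h1
      have h2 := congrArg (algebraMap (𝓞 K) K) h1
      rw [hg k hk, hg l hl] at h2
      exact hkl (mul_left_cancel₀ (by exact_mod_cast ha.ne') h2)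
    have h1 : p ≤ (Algebra.norm ℤ (g k - g l)).natAbs :=
      Nat.le_of_dvd (Int.natAbs_pos.2 h0) (Int.natCast_dvd.1 h)
    have h2 : (Algebra.norm ℤ (g k - g l)).natAbs ≤
        ∑ k ∈ S, ∑ l ∈ S, (Algebra.norm ℤ (g k - g l)).natAbs :=
      (Finset.single_le_sum (f := fun l => (Algebra.norm ℤ (g k - g l)).natAbs)
        (fun _ _ => Nat.zero_le _) hl).trans
        (Finset.single_le_sum (f := fun k => ∑ l ∈ S, (Algebra.norm ℤ (g k - g l)).natAbs)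
        (fun _ _ => Nat.zero_le _) hk)
    omega
  obtain ⟨j, hj, hcore⟩ := core v S hS a g hg b hb p hp hpa hpN k hk hbk
  set F : ℂ[X] := pol S (a : ℂ) (fun l => a * v l) p j with hF
  set n := (p - 1) + (S.card - 1) * p with hn
  have hcard : 0 < S.card := Finset.card_pos.2 ⟨k, hk⟩
  have hnN : n ≤ S.card * p := by
    obtain ⟨m, hm⟩ : ∃ m, S.card = m + 1 := ⟨S.card - 1, by omega⟩
    rw [hn, hm, Nat.add_sub_cancel, add_mul, one_mul]; omega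
  have hmaj : Maj F ((C A * X + C A) ^ n) := by
    have h1 : ∀ l ∈ S, Maj (C (a : ℂ) * X - C (a * v l)) (C A * X + C A) := by
      intro l hl
      refine Maj.lin _ _ A ?_ ?_
      · rw [Complex.norm_natCast, hA]; nlinarith
      · rw [norm_mul, Complex.norm_natCast, hA]
        have := hRγ l hl
        nlinarith
    have h2 := ((h1 j hj).pow (p - 1)).mul (Maj.prod (S.erase j) _ _ fun l hl =>
      (h1 l (Finset.mem_of_mem_erase hl)).pow p)
    rw [Finset.prod_const, Finset.card_erase_of_mem hj, ← pow_mul, ← pow_add, mul_comm p] at h2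
    exact h2
  have hdegG : ((C A * X + C A) ^ n : ℝ[X]).natDegree ≤ S.card * p := by
    refine (natDegree_pow_le).trans ?_
    calc n * (C A * X + C A : ℝ[X]).natDegree ≤ n * 1 := Nat.mul_le_mul_left _ natDegree_linear_le
      _ ≤ _ := by omega
  have hF0 : ‖(sumIDeriv F).eval 0‖ ≤ (S.card * p).factorial * (2 * A) ^ (S.card * p) := by
    refine (hmaj.sumIDeriv (S.card * p) (pol_natDegree S _ _ p j hj) hdegG).trans ?_
    refine mul_le_mul_of_nonneg_left ?_ (by positivity)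
    have : (((C A * X + C A) ^ n : ℝ[X])).eval 1 = (2 * A) ^ n := by simp; ring
    rw [this]
    exact pow_le_pow_right₀ (by linarith) hnN
  have hFγ : ∀ γ ∈ S, ‖Complex.exp (v γ) * (sumIDeriv F).eval 0 - (sumIDeriv F).eval (v γ)‖ ≤
      E0 * (A * (R + 1)) ^ (S.card * p) := by
    intro γ hγ
    have h1 := hermite F (v γ) ((A * (R + 1)) ^ (S.card * p)) (fun x hx => by
      refine (hmaj.eval _).trans ?_
      have h2 : ‖x • v γ‖ ≤ R := by
        rw [norm_smul, Real.norm_of_nonneg hx.1.le]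
        exact (mul_le_of_le_one_left (norm_nonneg _) hx.2).trans (hRγ γ hγ)
      rw [eval_pow, eval_add, eval_mul, eval_C, eval_X]
      calc (A * ‖x • v γ‖ + A) ^ n ≤ (A * (R + 1)) ^ n := by
            refine pow_le_pow_left₀ (by positivity) ?_ _
            nlinarith
        _ ≤ _ := pow_le_pow_right₀ (by nlinarith) hnN)
    refine h1.trans ?_
    rw [hE0]
    have h2 := hRγ γ hγ
    have h3 : Real.exp ‖v γ‖ ≤ Real.exp R := Real.exp_le_exp.2 h2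
    calc Real.exp ‖v γ‖ * (‖v γ‖ * (Real.exp ‖v γ‖ * (A * (R + 1)) ^ (S.card * p))) ≤
        Real.exp R * (R * (Real.exp R * (A * (R + 1)) ^ (S.card * p))) := by gcongr
      _ = _ := by ring
  have hsum : ∑ γ ∈ S, (b γ : ℂ) * (sumIDeriv F).eval (v γ) =
      (sumIDeriv F).eval 0 * ∑ γ ∈ S, (b γ : ℂ) * Complex.exp (v γ) -
      ∑ γ ∈ S, (b γ : ℂ) * (Complex.exp (v γ) * (sumIDeriv F).eval 0 - (sumIDeriv F).eval (v γ)) := by
    rw [Finset.mul_sum, ← Finset.sum_sub_distrib]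
    refine Finset.sum_congr rfl fun γ _ => ?_
    ring
  have hnorm : ‖∑ γ ∈ S, (b γ : ℂ) * (sumIDeriv F).eval (v γ)‖ ≤
      (S.card * p).factorial * (2 * A) ^ (S.card * p) * ‖∑ γ ∈ S, (b γ : ℂ) * Complex.exp (v γ)‖ +
      H * (E0 * (A * (R + 1)) ^ (S.card * p)) := by
    rw [hsum]
    refine (norm_sub_le _ _).trans (add_le_add ?_ ?_)
    · rw [norm_mul]
      exact mul_le_mul_of_nonneg_right hF0 (norm_nonneg _)
    · refine (norm_sum_le _ _).trans ?_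
      calc ∑ γ ∈ S, ‖(b γ : ℂ) * (Complex.exp (v γ) * (sumIDeriv F).eval 0 -
            (sumIDeriv F).eval (v γ))‖ ≤
            ∑ γ ∈ S, |(b γ : ℝ)| * (E0 * (A * (R + 1)) ^ (S.card * p)) := by
            refine Finset.sum_le_sum fun γ hγ => ?_
            rw [norm_mul, Complex.norm_intCast]
            exact mul_le_mul_of_nonneg_left (hFγ γ hγ) (abs_nonneg _)
        _ ≤ _ := by
            rw [← Finset.sum_mul]
            exact mul_le_mul_of_nonneg_right hH (by positivity)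
  have hH0 : 0 ≤ H := le_trans (Finset.sum_nonneg fun _ _ => abs_nonneg _) hH
  calc ((p - 1).factorial : ℝ) ≤ a ^ (S.card * p) *
        ‖∑ γ ∈ S, (b γ : ℂ) * (sumIDeriv F).eval (v γ)‖ := hcore
    _ ≤ a ^ (S.card * p) * ((S.card * p).factorial * (2 * A) ^ (S.card * p) *
        ‖∑ γ ∈ S, (b γ : ℂ) * Complex.exp (v γ)‖ +
      H * (E0 * (A * (R + 1)) ^ (S.card * p))) := mul_le_mul_of_nonneg_left hnorm (by positivity)
    _ = (S.card * p).factorial * ((2 * A * a) ^ S.card) ^ p *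
        ‖∑ γ ∈ S, (b γ : ℂ) * Complex.exp (v γ)‖ + H * (((A * (R + 1) * a) ^ S.card) ^ p * E0) := by
      rw [← pow_mul, ← pow_mul, mul_pow (2 * A) (a : ℝ), mul_pow (A * (R + 1)) (a : ℝ)]; ring
    _ ≤ (S.card * p).factorial * (D : ℝ) ^ p *
        ‖∑ γ ∈ S, (b γ : ℂ) * Complex.exp (v γ)‖ + H * ((D : ℝ) ^ p * D) := by
      have e1 : (2 * A * a) ^ S.card ≤ (D : ℝ) := by linarith
      have e2 : (A * (R + 1) * a) ^ S.card ≤ (D : ℝ) := by linarith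
      have e3 : E0 ≤ (D : ℝ) := by linarith
      gcongr
    _ = _ := by rw [pow_succ]

/-- **The measure for invariant sums.** -/
lemma inv_meas [IsGalois ℚ K] (v : K →+* ℂ) (S : Finset K)
    (hS : ∀ σ : K ≃ₐ[ℚ] K, ∀ γ ∈ S, σ γ ∈ S) : ∃ κ : ℕ, ∃ c : ℝ, 0 < c ∧
    ∀ b : K → ℤ, (∀ σ : K ≃ₐ[ℚ] K, ∀ γ, b (σ γ) = b γ) → (∃ γ ∈ S, b γ ≠ 0) →
      ∀ H : ℝ, 1 ≤ H → ∑ γ ∈ S, |(b γ : ℝ)| ≤ H →
      c ≤ H ^ κ * ‖∑ γ ∈ S, (b γ : ℂ) * Complex.exp (v γ)‖ := by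
  classical
  rcases S.eq_empty_or_nonempty with hS0 | hS0
  · refine ⟨0, 1, one_pos, fun b _ ⟨γ, hγ, _⟩ => ?_⟩
    rw [hS0] at hγ
    exact absurd hγ (Finset.notMem_empty _)
  obtain ⟨D, p₀, hD, h1⟩ := one_prime v S hS
  obtain ⟨κ, c, hc, h2⟩ := choice S.card D p₀ hD (Finset.card_pos.2 hS0)
  refine ⟨κ, c, hc, fun b hb ⟨γ₀, hγ₀, hbγ₀⟩ H hH hbH => ?_⟩
  obtain ⟨d, hd⟩ : ∃ d : ℤ, d = S.gcd b := ⟨_, rfl⟩
  have hdvd : ∀ γ ∈ S, d ∣ b γ := fun γ hγ => by rw [hd]; exact Finset.gcd_dvd hγ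
  have hd0 : d ≠ 0 := by
    intro h0
    rw [h0] at hdvd
    exact hbγ₀ (zero_dvd_iff.1 (hdvd γ₀ hγ₀))
  have hdiv : ∀ γ ∈ S, b γ = d * (b γ / d) := fun γ hγ => (Int.mul_ediv_cancel' (hdvd γ hγ)).symm
  have hd1 : (1 : ℝ) ≤ |(d : ℝ)| := by exact_mod_cast Int.one_le_abs hd0
  have h3 := h2 H ‖∑ γ ∈ S, ((b γ / d : ℤ) : ℂ) * Complex.exp (v γ)‖ hH (norm_nonneg _)
    (fun p hp hp0 => h1 (fun γ => b γ / d) (fun σ γ => by simp only [hb σ γ]) H (by
      refine le_trans (Finset.sum_le_sum fun γ hγ => ?_) hbH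
      have h4 := hdiv γ hγ
      have h5 : |(b γ : ℝ)| = |(d : ℝ)| * |((b γ / d : ℤ) : ℝ)| := by
        rw [← abs_mul]; exact_mod_cast congrArg (fun z : ℤ => |(z : ℝ)|) h4
      rw [h5]
      exact le_mul_of_one_le_left (abs_nonneg _) hd1) p hp hp0 (by
      by_contra hcon
      push Not at hcon
      have h4 : d * (p : ℤ) ∣ d := by
        have h5 : d * (p : ℤ) ∣ S.gcd b := by
          refine Finset.dvd_gcd fun γ hγ => ?_
          rw [hdiv γ hγ]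
          exact mul_dvd_mul_left _ (hcon γ hγ)
        rwa [← hd] at h5
      have h6 : (p : ℤ) ∣ 1 := by
        rw [← mul_dvd_mul_iff_left hd0, mul_one]
        exact h4
      exact (Nat.prime_iff_prime_int.1 hp).not_dvd_one h6))
  refine h3.trans (mul_le_mul_of_nonneg_left ?_ (by positivity))
  have h4 : ∑ γ ∈ S, (b γ : ℂ) * Complex.exp (v γ) =
      d * ∑ γ ∈ S, ((b γ / d : ℤ) : ℂ) * Complex.exp (v γ) := by
    rw [Finset.mul_sum]
    refine Finset.sum_congr rfl fun γ hγ => ?_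
    have h5 : (b γ : ℂ) = (d : ℂ) * ((b γ / d : ℤ) : ℂ) := by exact_mod_cast hdiv γ hγ
    rw [h5]; ring
  rw [h4, norm_mul, Complex.norm_intCast]
  exact le_mul_of_one_le_left (norm_nonneg _) hd1

end Pool.Agent.H596.Q
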