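import Pool.Agent.H596.Q.Res

/-!
# Polynomials in exponentials, and elimination
-/

set_option autoImplicit false

namespace Pool.Agent.H596.Q

open AddMonoidAlgebra

/-- a Galois number field which contains given algebraic numbers -/
lemma exists_field {σ : Type*} [Finite σ] (α : σ → ℂ) (hα : ∀ i, IsAlgebraic ℚ (α i)) :
    ∃ (K : Type) (_ : Field K) (_ : NumberField K) (_ : IsGalois ℚ K) (v : K →+* ℂ) (a : σ → K),
      ∀ i, v (a i) = α i := by
  classical
  have hcl : IsAlgClosure ℚ (algebraicClosure ℚ ℂ) := algebraicClosure.isAlgClosure ℚ ℂ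
  have hnorm : Normal ℚ (algebraicClosure ℚ ℂ) := IsAlgClosure.normal ℚ _
  let a' : σ → algebraicClosure ℚ ℂ := fun i => ⟨α i, mem_algebraicClosure_iff.2 (hα i)⟩
  let L : IntermediateField ℚ (algebraicClosure ℚ ℂ) := IntermediateField.adjoin ℚ (Set.range a')
  have hL : FiniteDimensional ℚ L :=
    IntermediateField.finiteDimensional_adjoin fun x _ =>
      (Algebra.IsAlgebraic.isAlgebraic x).isIntegral
  let K : IntermediateField ℚ (algebraicClosure ℚ ℂ) :=
    IntermediateField.normalClosure ℚ L (algebraicClosure ℚ ℂ)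
  have h1 : FiniteDimensional ℚ K := normalClosure.is_finiteDimensional ℚ L _
  have h2 : Normal ℚ K := normalClosure.normal ℚ L _
  have h3 : NumberField K := ⟨⟩
  have hLK : L ≤ K := IntermediateField.le_normalClosure L
  refine ⟨K, inferInstance, h3, ⟨⟩,
    ((algebraicClosure ℚ ℂ).val : algebraicClosure ℚ ℂ →+* ℂ).comp
      (K.val : K →+* algebraicClosure ℚ ℂ),
    fun i => ⟨a' i, hLK (IntermediateField.subset_adjoin ℚ _ ⟨i, rfl⟩)⟩, fun i => rfl⟩

section iota

variable {K : Type*} [Field K] {σ : Type*} [Fintype σ]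

/-- the exponents -/
def wt (a : σ → K) (m : σ →₀ ℕ) : K := ∑ i, (m i : K) * a i

/-- the polynomials in exponentials -/
noncomputable def iota (a : σ → K) : MvPolynomial σ ℤ →+* GR K :=
  MvPolynomial.eval₂Hom (Int.castRingHom (GR K)) fun i => single (a i) 1

lemma single_pow' (γ : K) (n : ℕ) : (single γ (1 : ℤ) : GR K) ^ n = single ((n : K) * γ) 1 := by
  rw [AddMonoidAlgebra.single_pow, one_pow, nsmul_eq_mul]

lemma prod_single (s : Finset σ) (f : σ → K) :
    (∏ i ∈ s, single (f i) (1 : ℤ) : GR K) = single (∑ i ∈ s, f i) 1 := by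
  classical
  induction s using Finset.induction_on with
  | empty => rw [Finset.prod_empty, Finset.sum_empty]; rfl
  | insert a s ha ih =>
    rw [Finset.prod_insert ha, Finset.sum_insert ha, ih, AddMonoidAlgebra.single_mul_single, one_mul]

lemma int_single (r : ℤ) : (r : GR K) = single 0 r := by
  rw [← zsmul_one (r : ℤ), AddMonoidAlgebra.one_def, AddMonoidAlgebra.smul_single]
  simp

lemma iota_monomial (a : σ → K) (m : σ →₀ ℕ) (r : ℤ) :
    iota a (MvPolynomial.monomial m r) = single (wt a m) r := by
  rw [iota, MvPolynomial.coe_eval₂Hom, MvPolynomial.eval₂_monomial, Finsupp.prod_fintype _ _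
    (fun i => pow_zero _)]
  simp only [single_pow', eq_intCast]
  rw [prod_single, int_single, AddMonoidAlgebra.single_mul_single, mul_one, zero_add]
  rfl

lemma iota_eq (a : σ → K) (P : MvPolynomial σ ℤ) :
    iota a P = ∑ m ∈ P.support, single (wt a m) (P.coeff m) := by
  conv_lhs => rw [MvPolynomial.as_sum P]
  rw [map_sum]
  exact Finset.sum_congr rfl fun m _ => iota_monomial a m _

lemma iota_coeff (a : σ → K) (ha : Function.Injective (wt a)) (P : MvPolynomial σ ℤ) (m : σ →₀ ℕ) :
    (iota a P).coeff (wt a m) = P.coeff m := by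
  classical
  rw [iota_eq, AddMonoidAlgebra.coeff_sum, Finsupp.finsetSum_apply]
  simp only [coeff_single, Finsupp.single_apply]
  rw [Finset.sum_congr rfl (g := fun m' => if m' = m then P.coeff m' else 0) (fun m' _ => by
    by_cases h : m' = m
    · rw [if_pos h, if_pos (by rw [h])]
    · rw [if_neg h, if_neg (fun h' => h (ha h'))])]
  rw [Finset.sum_ite_eq']
  split_ifs with h
  · rfl
  · exact (MvPolynomial.notMem_support_iff.1 h).symm

lemma iota_injective (a : σ → K) (ha : Function.Injective (wt a)) :
    Function.Injective (iota a) := by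
  rw [injective_iff_map_eq_zero]
  intro P hP
  ext m
  rw [← iota_coeff a ha P m, hP]; rfl

/-- the exponents of bounded degree -/
noncomputable def box (σ : Type*) [Fintype σ] (d : ℕ) : Finset (σ →₀ ℕ) :=
  by
    classical
    exact (Fintype.piFinset fun _ : σ => Finset.range (d + 1)).image fun f =>
      Finsupp.equivFunOnFinite.symm f

lemma mem_box (d : ℕ) (m : σ →₀ ℕ) (hm : ∀ i, m i ≤ d) : m ∈ box σ d := by
  classical
  rw [box, Finset.mem_image]
  refine ⟨fun i => m i, ?_, ?_⟩
  · rw [Fintype.mem_piFinset]
    intro i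
    rw [Finset.mem_range]
    have := hm i
    omega
  · ext i; rfl

lemma iota_support [DecidableEq K] (a : σ → K) (d : ℕ) (P : MvPolynomial σ ℤ)
    (hP : ∀ i, P.degreeOf i ≤ d) : (iota a P).coeff.support ⊆ (box σ d).image (wt a) := by
  classical
  rw [iota_eq]
  refine support_sum' _ _ _ fun m hm => ?_
  rw [coeff_single]
  refine Finsupp.support_single_subset.trans ?_
  rw [Finset.singleton_subset_iff]
  refine Finset.mem_image_of_mem _ (mem_box d m fun i => ?_)
  exact (MvPolynomial.degreeOf_le_iff.1 (hP i)) m hm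

lemma iota_L1 (a : σ → K) (d : ℕ) (P : MvPolynomial σ ℤ)
    (hP : ∀ i, P.degreeOf i ≤ d) (H : ℝ) (hH0 : 0 ≤ H) (hH : ∀ m, |((P.coeff m : ℤ) : ℝ)| ≤ H) :
    L1 (iota a P) ≤ (box σ d).card * H := by
  classical
  rw [iota_eq]
  refine (L1_sum _ _).trans ?_
  calc ∑ m ∈ P.support, L1 (single (wt a m) (P.coeff m) : GR K) ≤ ∑ m ∈ P.support, H :=
        Finset.sum_le_sum fun m _ => by rw [L1_single]; exact hH m
    _ = P.support.card * H := by rw [Finset.sum_const, nsmul_eq_mul]
    _ ≤ _ := by
        refine mul_le_mul_of_nonneg_right ?_ hH0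
        exact_mod_cast Finset.card_le_card fun m hm => mem_box d m fun i =>
          (MvPolynomial.degreeOf_le_iff.1 (hP i)) m hm

lemma E_iota (v : K →+* ℂ) (a : σ → K) (P : MvPolynomial σ ℤ) :
    E v (iota a P) = MvPolynomial.aeval (fun i => Complex.exp (v (a i))) P := by
  have h : (E v).comp (iota a) =
      ((MvPolynomial.aeval (fun i => Complex.exp (v (a i)))) : MvPolynomial σ ℤ →ₐ[ℤ] ℂ).toRingHom := by
    refine MvPolynomial.ringHom_ext (fun r => ?_) fun i => ?_
    · simp
    · rw [RingHom.comp_apply, iota, MvPolynomial.coe_eval₂Hom, MvPolynomial.eval₂_X, E_single]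
      simp
  exact congrArg (fun f : MvPolynomial σ ℤ →+* ℂ => f P) h

lemma wt_injective (a : σ → K) [CharZero K] (ha : LinearIndependent ℚ a) :
    Function.Injective (wt a) := by
  intro m m' h
  rw [wt, wt, ← sub_eq_zero, ← Finset.sum_sub_distrib] at h
  have h1 := Fintype.linearIndependent_iff.1 ha (fun i => (m i : ℚ) - (m' i : ℚ)) (by
    rw [← h]
    refine Finset.sum_congr rfl fun i _ => ?_
    rw [Algebra.smul_def, map_sub, map_natCast, map_natCast]
    ring)
  ext i
  have := h1 i
  rw [sub_eq_zero] at this
  exact_mod_cast this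

end iota

section gauss

open Polynomial

/-- the resultant of polynomials without a common factor of positive degree -/
lemma res_ne' {R : Type*} [CommRing R] [IsDomain R] [UniqueFactorizationMonoid R] (P Q : R[X])
    (h : ∀ D : R[X], D ∣ P → D ∣ Q → D.natDegree = 0) : resultant P Q ≠ 0 := by
  classical
  let i1 : StrongNormalizationMonoid R := UniqueFactorizationMonoid.strongNormalizationMonoid
  let i2 : NormalizedGCDMonoid R := UniqueFactorizationMonoid.toNormalizedGCDMonoid R
  by_cases hP : P = 0
  · have h1 := h Q (by rw [hP]; exact dvd_zero _) dvd_rfl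
    rw [hP, natDegree_zero, h1]
    simp
  by_cases hQ : Q = 0
  · have h1 := h P dvd_rfl (by rw [hQ]; exact dvd_zero _)
    rw [hQ, natDegree_zero, h1]
    simp
  set ι := algebraMap R (FractionRing R) with hι
  have hinj : Function.Injective ι := IsFractionRing.injective _ _
  have hcop : IsCoprime (P.map ι) (Q.map ι) := by
    refine isCoprime_of_irreducible_dvd ?_ ?_
    · rintro ⟨h1, -⟩
      exact hP ((Polynomial.map_eq_zero_iff hinj).1 h1)
    · intro G hG hGP hGQ
      obtain ⟨b, hb, hbG⟩ := IsLocalization.integerNormalization_spec (nonZeroDivisors R) G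
      set g := IsLocalization.integerNormalization (nonZeroDivisors R) G with hg
      have hb0 : ι b ≠ 0 := by
        rw [Ne, map_eq_zero_iff _ hinj]
        exact nonZeroDivisors.ne_zero hb
      have hg0 : g ≠ 0 := by
        intro h0
        rw [h0, Polynomial.map_zero] at hbG
        have h1 : C (ι b) * G = 0 := by rw [hbG, Algebra.smul_def]; rfl
        rcases mul_eq_zero.1 h1 with h2 | h2
        · exact hb0 (C_eq_zero.1 h2)
        · exact hG.ne_zero h2
      have hassoc : g.primPart.map ι ∣ G := by
        have h1 : g.map ι = C (ι g.content) * g.primPart.map ι := by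
          conv_lhs => rw [g.eq_C_content_mul_primPart]
          rw [Polynomial.map_mul, map_C]
        have h2 : C (ι b) * G = C (ι g.content) * g.primPart.map ι := by
          rw [← h1, hbG, Algebra.smul_def]; rfl
        have hu : IsUnit (C (ι b)) := isUnit_C.2 (isUnit_iff_ne_zero.2 hb0)
        rw [← hu.dvd_mul_left, h2]
        exact dvd_mul_left _ _
      have hdeg : g.primPart.natDegree = G.natDegree := by
        rw [natDegree_primPart, ← natDegree_map_eq_of_injective hinj g, hbG, Algebra.smul_def]
        exact natDegree_C_mul hb0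
      have h1 := h g.primPart
        ((isPrimitive_primPart g).dvd_of_fraction_map_dvd_fraction_map (K := FractionRing R)
          (hassoc.trans hGP))
        ((isPrimitive_primPart g).dvd_of_fraction_map_dvd_fraction_map (K := FractionRing R)
          (hassoc.trans hGQ))
      rw [hdeg] at h1
      exact hG.natDegree_pos.ne' h1
  have h2 := resultant_ne_zero _ _ hcop
  rw [natDegree_map_eq_of_injective hinj, natDegree_map_eq_of_injective hinj, resultant_map_map] at h2
  intro h0
  exact h2 (by rw [h0, map_zero])

end gauss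

end Pool.Agent.H596.Q
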