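import Pool.Agent.H596.Q.Alt

/-!
# At every scale there is at most one exceptional irreducible polynomial
-/

set_option autoImplicit false

namespace Pool.Agent.H596.Q

open Pool.Agent.TH456.TM (MeasT)

variable {σ : Type*} [Fintype σ]

/-- the sum of the degrees -/
noncomputable def sd {τ : Type*} [Fintype τ] (P : MvPolynomial τ ℤ) : ℕ := ∑ o, P.degreeOf o

lemma sd_mul {τ : Type*} [Fintype τ] (P Q : MvPolynomial τ ℤ) (hP : P ≠ 0) (hQ : Q ≠ 0) :
    sd (P * Q) = sd P + sd Q := by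
  rw [sd, sd, sd, ← Finset.sum_add_distrib]
  exact Finset.sum_congr rfl fun o _ => MvPolynomial.degreeOf_mul_eq hP hQ

lemma sd_zero {τ : Type*} [Fintype τ] (P : MvPolynomial τ ℤ) (h : sd P = 0) :
    ∃ z : ℤ, P = MvPolynomial.C z := by
  refine ⟨P.coeff 0, ?_⟩
  rw [← MvPolynomial.totalDegree_eq_zero_iff_eq_C]
  rw [sd, Finset.sum_eq_zero_iff] at h
  rw [← Nat.le_zero, MvPolynomial.totalDegree]
  refine Finset.sup_le fun m hm => ?_
  rw [Nat.le_zero, Finsupp.sum_fintype _ _ (fun _ => rfl), Finset.sum_eq_zero_iff]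
  intro o _
  have := (MvPolynomial.degreeOf_le_iff.1 (h o (Finset.mem_univ o)).le) m hm
  omega

/-- a lower bound from lower bounds for the irreducible factors -/
lemma prod_bound (t : ℂ) (α : σ → ℂ) (δ : ℝ) (hδ : 0 < δ) (hδ1 : δ ≤ 1)
    (P : MvPolynomial (Option σ) ℤ) (hP : P ≠ 0)
    (h : ∀ p, Irreducible p → p ∣ P → 0 < sd p → δ ≤ ‖ev t α p‖) : δ ^ sd P ≤ ‖ev t α P‖ := by
  classical
  induction P using WfDvdMonoid.induction_on_irreducible with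
  | zero => exact absurd rfl hP
  | unit u hu =>
    obtain ⟨z, hz⟩ := sd_zero u (by
      obtain ⟨w, hw⟩ := hu.exists_right_inv
      have h1 : u ≠ 0 := hu.ne_zero
      have h2 : w ≠ 0 := right_ne_zero_of_mul (by rw [hw]; exact one_ne_zero)
      have h3 := sd_mul u w h1 h2
      have h4 : sd (1 : MvPolynomial (Option σ) ℤ) = 0 := by simp [sd]
      rw [hw, h4] at h3
      omega)
    have hz0 : z ≠ 0 := fun h0 => hP (by rw [hz, h0, map_zero])
    have h5 : ev t α u = z := by rw [ev, hz]; simp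
    rw [h5, Complex.norm_intCast]
    exact (pow_le_one₀ hδ.le hδ1).trans (by exact_mod_cast Int.one_le_abs hz0)
  | mul a i ha hi ih =>
    have hi0 : i ≠ 0 := hi.ne_zero
    rw [ev_mul, norm_mul, sd_mul i a hi0 ha, pow_add]
    refine mul_le_mul ?_ (ih ha fun p hp hpa => h p hp (hpa.trans (dvd_mul_left _ _)))
      (by positivity) (norm_nonneg _)
    by_cases h0 : sd i = 0
    · obtain ⟨z, hz⟩ := sd_zero i h0
      have hz0 : z ≠ 0 := fun h0 => hi0 (by rw [hz, h0, map_zero])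
      have h5 : ev t α i = z := by rw [ev, hz]; simp
      rw [h5, Complex.norm_intCast, h0, pow_zero]
      exact_mod_cast Int.one_le_abs hz0
    · have h6 := h i hi (dvd_mul_right _ _) (Nat.pos_of_ne_zero h0)
      refine le_trans ?_ h6
      exact pow_le_of_le_one hδ.le hδ1 h0

/-- **One exceptional irreducible polynomial at every scale.** -/
theorem one_factor (α : σ → ℂ) (hα : ∀ i, IsAlgebraic ℚ (α i))
    (hli : LinearIndependent ℚ α) (d : ℕ) (T : ℝ) :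
    ∃ κ : ℕ, ∃ c : ℝ, 0 < c ∧ ∀ t : ℂ, ‖t‖ ≤ T → ∀ H : ℝ, 1 ≤ H →
      ∃ F : MvPolynomial (Option σ) ℤ, Irreducible F ∧ ∀ P, P ≠ 0 → (∀ o, P.degreeOf o ≤ d) →
        (∀ m, |((P.coeff m : ℤ) : ℝ)| ≤ H) → H ^ κ * ‖ev t α P‖ < c → F ∣ P := by
  classical
  obtain ⟨κ₁, c₁, hc₁, h₁⟩ := partA α hα hli d T
  obtain ⟨B, hB, hfac⟩ := factor_height (τ := Option σ) d
  obtain ⟨N, hN⟩ : ∃ N : ℕ, N = Fintype.card (Option σ) * d := ⟨_, rfl⟩
  obtain ⟨c₂, hc₂⟩ : ∃ c₂ : ℝ, c₂ = min c₁ 1 / B ^ κ₁ := ⟨_, rfl⟩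
  have hc₂0 : 0 < c₂ := by rw [hc₂]; exact div_pos (lt_min hc₁ one_pos) (by positivity)
  have hc₂1 : c₂ ≤ 1 := by
    rw [hc₂, div_le_one (by positivity)]
    exact (min_le_right _ _).trans (one_le_pow₀ hB)
  refine ⟨κ₁ * N, c₂ ^ N, by positivity, fun t ht H hH => ?_⟩
  have hH0 : 0 ≤ H := by linarith
  have hHp : 0 < H := by linarith
  obtain ⟨δ, hδ⟩ : ∃ δ : ℝ, δ = c₂ / H ^ κ₁ := ⟨_, rfl⟩
  have hδ0 : 0 < δ := by rw [hδ]; positivity
  have hδ1 : δ ≤ 1 := by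
    rw [hδ, div_le_one (by positivity)]
    exact hc₂1.trans (one_le_pow₀ hH)
  -- a small irreducible factor
  have key : ∀ P : MvPolynomial (Option σ) ℤ, P ≠ 0 → (∀ o, P.degreeOf o ≤ d) →
      (∀ m, |((P.coeff m : ℤ) : ℝ)| ≤ H) → H ^ (κ₁ * N) * ‖ev t α P‖ < c₂ ^ N →
      ∃ p, Irreducible p ∧ p ∣ P ∧ ‖ev t α p‖ < δ := by
    intro P hP hPd hPH hsmall
    by_contra hcon
    push Not at hcon
    have h2 := prod_bound t α δ hδ0 hδ1 P hP fun p hp hpP _ => hcon p hp hpP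
    have h3 : sd P ≤ N := by
      rw [sd, hN, ← smul_eq_mul, ← Finset.card_univ]
      exact Finset.sum_le_card_nsmul _ _ _ fun o _ => hPd o
    have h4 : δ ^ N ≤ ‖ev t α P‖ := (pow_le_pow_of_le_one hδ0.le hδ1 h3).trans h2
    have h5 : H ^ (κ₁ * N) * δ ^ N = c₂ ^ N := by
      rw [hδ, div_pow, pow_mul]
      field_simp
    have h6 : c₂ ^ N ≤ H ^ (κ₁ * N) * ‖ev t α P‖ := by
      rw [← h5]
      exact mul_le_mul_of_nonneg_left h4 (by positivity)
    linarith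
  by_cases hex : ∃ P : MvPolynomial (Option σ) ℤ, P ≠ 0 ∧ (∀ o, P.degreeOf o ≤ d) ∧
      (∀ m, |((P.coeff m : ℤ) : ℝ)| ≤ H) ∧ H ^ (κ₁ * N) * ‖ev t α P‖ < c₂ ^ N
  · obtain ⟨P₀, hP₀, hP₀d, hP₀H, hP₀s⟩ := hex
    obtain ⟨F, hF, hFP₀, hFs⟩ := key P₀ hP₀ hP₀d hP₀H hP₀s
    refine ⟨F, hF, fun P hP hPd hPH hPs => ?_⟩
    obtain ⟨p, hp, hpP, hps⟩ := key P hP hPd hPH hPs
    by_contra hFP
    obtain ⟨hFd, hFH⟩ := hfac P₀ F hP₀ hFP₀ hP₀d H hH0 hP₀H
    obtain ⟨hpd, hpH⟩ := hfac P p hP hpP hPd H hH0 hPH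
    have h2 := h₁ t ht F p hFd hpd (fun D hD1 hD2 => by
      rcases (dvd_dvd_iff_associated (a := D) (b := D)).1 ⟨dvd_rfl, dvd_rfl⟩ with _
      rcases hF.isUnit_or_isUnit hD1.choose_spec with h3 | h3
      · obtain ⟨w, hw⟩ := h3.exists_right_inv
        have h1 : D ≠ 0 := h3.ne_zero
        have h2 : w ≠ 0 := right_ne_zero_of_mul (by rw [hw]; exact one_ne_zero)
        have h9 := MvPolynomial.degreeOf_mul_eq (n := none) h1 h2
        rw [hw, MvPolynomial.degreeOf_one] at h9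
        omega
      · exfalso
        apply hFP
        have h4 : F ∣ D := by
          obtain ⟨u, hu⟩ := h3
          refine ⟨↑u⁻¹, ?_⟩
          rw [hD1.choose_spec, ← hu, mul_assoc, Units.mul_inv, mul_one]
        exact (h4.trans hD2).trans hpP) (B * H)
      (one_le_mul_of_one_le_of_one_le hB hH) hFH hpH
    have h3 : max ‖ev t α F‖ ‖ev t α p‖ < δ := max_lt hFs hps
    have h4 : (B * H) ^ κ₁ * max ‖ev t α F‖ ‖ev t α p‖ < (B * H) ^ κ₁ * δ :=
      mul_lt_mul_of_pos_left h3 (by positivity)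
    have h5 : (B * H) ^ κ₁ * δ = min c₁ 1 := by
      rw [hδ, hc₂, mul_pow]
      have : B ^ κ₁ ≠ 0 := by positivity
      have : H ^ κ₁ ≠ 0 := by positivity
      field_simp
    rw [h5] at h4
    have h6 : min c₁ 1 ≤ c₁ := min_le_left _ _
    linarith
  · refine ⟨MvPolynomial.X none, MvPolynomial.X_prime.irreducible, fun P hP hPd hPH hPs =>
      absurd ⟨P, hP, hPd, hPH, hPs⟩ hex⟩

end Pool.Agent.H596.Q
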