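import Pool.Agent.H596.Q.Mv

/-!
# Two polynomials in an arbitrary number and exponentials of algebraic numbers
-/

set_option autoImplicit false

namespace Pool.Agent.H596.Q

open Polynomial

/-- the value of an integer polynomial at the number `t` and the exponentials of the `α i` -/
noncomputable def ev {σ : Type*} (t : ℂ) (α : σ → ℂ) (P : MvPolynomial (Option σ) ℤ) : ℂ :=
  MvPolynomial.aeval (fun o : Option σ => o.elim t fun i => Complex.exp (α i)) P

lemma ev_mul {σ : Type*} (t : ℂ) (α : σ → ℂ) (P Q : MvPolynomial (Option σ) ℤ) :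
    ev t α (P * Q) = ev t α P * ev t α Q := by rw [ev, ev, ev, map_mul]

lemma ev_eq {σ : Type*} [Fintype σ] (t : ℂ) (α : σ → ℂ) (P : MvPolynomial (Option σ) ℤ) :
    ev t α P = ((MvPolynomial.optionEquivLeft ℤ σ P).map
      ((MvPolynomial.aeval (fun i => Complex.exp (α i)) : MvPolynomial σ ℤ →ₐ[ℤ] ℂ) :
        MvPolynomial σ ℤ →+* ℂ)).eval t := by
  have h : ((MvPolynomial.aeval (fun o : Option σ => o.elim t fun i => Complex.exp (α i)) :
      MvPolynomial (Option σ) ℤ →ₐ[ℤ] ℂ) : MvPolynomial (Option σ) ℤ →+* ℂ) =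
      ((evalRingHom t).comp (mapRingHom
        ((MvPolynomial.aeval (fun i => Complex.exp (α i)) : MvPolynomial σ ℤ →ₐ[ℤ] ℂ) :
        MvPolynomial σ ℤ →+* ℂ))).comp
        ((MvPolynomial.optionEquivLeft ℤ σ : MvPolynomial (Option σ) ℤ ≃ₐ[ℤ] _) :
          MvPolynomial (Option σ) ℤ →+* (MvPolynomial σ ℤ)[X]) := by
    refine MvPolynomial.ringHom_ext (fun r => ?_) fun o => ?_
    · simp
    · rcases o with _ | i
      · simp [MvPolynomial.optionEquivLeft_X_none]
      · simp [MvPolynomial.optionEquivLeft_X_some]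
  exact congrArg (fun f : MvPolynomial (Option σ) ℤ →+* ℂ => f P) h

/-- **Elimination of one number, with exponentials.** -/
theorem partA {σ : Type*} [Fintype σ] (α : σ → ℂ) (hα : ∀ i, IsAlgebraic ℚ (α i))
    (hli : LinearIndependent ℚ α) (d : ℕ) (T : ℝ) :
    ∃ κ : ℕ, ∃ c : ℝ, 0 < c ∧ ∀ t : ℂ, ‖t‖ ≤ T → ∀ P Q : MvPolynomial (Option σ) ℤ,
      (∀ o, P.degreeOf o ≤ d) → (∀ o, Q.degreeOf o ≤ d) →
      (∀ D, D ∣ P → D ∣ Q → D.degreeOf none = 0) → ∀ H : ℝ, 1 ≤ H →
      (∀ m, |((P.coeff m : ℤ) : ℝ)| ≤ H) → (∀ m, |((Q.coeff m : ℤ) : ℝ)| ≤ H) →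
      c ≤ H ^ κ * max ‖ev t α P‖ ‖ev t α Q‖ := by
  classical
  obtain ⟨K, _, _, _, v, a, hva⟩ := exists_field α hα
  have ha : LinearIndependent ℚ a := by
    rw [Fintype.linearIndependent_iff] at hli ⊢
    intro g hg i
    refine hli g ?_ i
    have h1 := congrArg v hg
    rw [map_sum, map_zero] at h1
    rw [← h1]
    refine Finset.sum_congr rfl fun j _ => ?_
    rw [Algebra.smul_def, Algebra.smul_def, map_mul, hva]
    congr 1
    exact (RingHom.congr_fun (Subsingleton.elim (algebraMap ℚ ℂ) (v.comp (algebraMap ℚ K))) (g j))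
  have hinj := iota_injective a (wt_injective a ha)
  obtain ⟨N, hN⟩ : ∃ N : ℕ, N = (box σ d).card := ⟨_, rfl⟩
  have hN1 : 1 ≤ N := by
    rw [hN]
    exact Finset.card_pos.2 ⟨0, mem_box d 0 fun i => Nat.zero_le _⟩
  have hN1R : (1 : ℝ) ≤ N := by exact_mod_cast hN1
  obtain ⟨κ, c, hc, h⟩ := elim v ((box σ d).image (wt a)) d T
  refine ⟨κ, c / N ^ κ, by positivity, fun t ht P Q hPd hQd hPQ H hH hPH hQH => ?_⟩
  -- facts about one polynomial
  have hdeg : ∀ F : MvPolynomial (Option σ) ℤ, (∀ o, F.degreeOf o ≤ d) → ∀ k i,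
      ((MvPolynomial.optionEquivLeft ℤ σ F).coeff k).degreeOf i ≤ d := by
    intro F hF k i
    rw [MvPolynomial.degreeOf_le_iff]
    intro m hm
    rw [MvPolynomial.mem_support_coeff_optionEquivLeft] at hm
    have h1 := (MvPolynomial.degreeOf_le_iff.1 (hF (some i))) _ hm
    simpa using h1
  have hnat : ∀ F : MvPolynomial (Option σ) ℤ,
      ((MvPolynomial.optionEquivLeft ℤ σ F).map (iota a)).natDegree =
        (MvPolynomial.optionEquivLeft ℤ σ F).natDegree := fun F =>
    natDegree_map_eq_of_injective hinj _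
  have hval : ∀ F : MvPolynomial (Option σ) ℤ,
      (((MvPolynomial.optionEquivLeft ℤ σ F).map (iota a)).map (E v)).eval t = ev t α F := by
    intro F
    rw [ev_eq, Polynomial.map_map]
    congr 2
    refine RingHom.ext fun G => ?_
    rw [RingHom.comp_apply, E_iota]
    simp only [hva]
    rfl
  have hres : resultant ((MvPolynomial.optionEquivLeft ℤ σ P).map (iota a))
      ((MvPolynomial.optionEquivLeft ℤ σ Q).map (iota a)) ≠ 0 := by
    rw [hnat, hnat, resultant_map_map, Ne, map_eq_zero_iff _ hinj]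
    refine res_ne' _ _ fun D hD1 hD2 => ?_
    have e1 : D = MvPolynomial.optionEquivLeft ℤ σ ((MvPolynomial.optionEquivLeft ℤ σ).symm D) :=
      (AlgEquiv.apply_symm_apply _ _).symm
    rw [e1, MvPolynomial.natDegree_optionEquivLeft]
    rw [e1] at hD1 hD2
    exact hPQ _ ((map_dvd_iff (MvPolynomial.optionEquivLeft ℤ σ)).1 hD1)
      ((map_dvd_iff (MvPolynomial.optionEquivLeft ℤ σ)).1 hD2)
  have hne : (MvPolynomial.optionEquivLeft ℤ σ P).map (iota a) ≠ 0 ∨
      (MvPolynomial.optionEquivLeft ℤ σ Q).map (iota a) ≠ 0 := by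
    by_contra hcon
    push Not at hcon
    rw [Polynomial.map_eq_zero_iff hinj, Polynomial.map_eq_zero_iff hinj,
      EmbeddingLike.map_eq_zero_iff, EmbeddingLike.map_eq_zero_iff] at hcon
    have h1 := hPQ (MvPolynomial.X none) (by rw [hcon.1]; exact dvd_zero _)
      (by rw [hcon.2]; exact dvd_zero _)
    rw [MvPolynomial.degreeOf_X, if_pos rfl] at h1
    exact one_ne_zero h1
  have hL : ∀ F : MvPolynomial (Option σ) ℤ, (∀ o, F.degreeOf o ≤ d) →
      (∀ m, |((F.coeff m : ℤ) : ℝ)| ≤ H) →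
      ∀ k, L1 (((MvPolynomial.optionEquivLeft ℤ σ F).map (iota a)).coeff k) ≤ N * H := by
    intro F hF hFH k
    rw [Polynomial.coeff_map, hN]
    refine iota_L1 a d _ (hdeg F hF k) H (by linarith) fun m => ?_
    rw [MvPolynomial.optionEquivLeft_coeff_coeff]
    exact hFH _
  have h1 := h t ht ((MvPolynomial.optionEquivLeft ℤ σ P).map (iota a))
    ((MvPolynomial.optionEquivLeft ℤ σ Q).map (iota a))
    (by rw [hnat, MvPolynomial.natDegree_optionEquivLeft]; exact hPd none)
    (by rw [hnat, MvPolynomial.natDegree_optionEquivLeft]; exact hQd none)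
    (fun k => by rw [Polynomial.coeff_map]; exact iota_support a d _ (hdeg P hPd k))
    (fun k => by rw [Polynomial.coeff_map]; exact iota_support a d _ (hdeg Q hQd k))
    hres hne (N * H) (one_le_mul_of_one_le_of_one_le hN1R hH) (hL P hPd hPH) (hL Q hQd hQH)
  rw [hval, hval] at h1
  rw [div_le_iff₀ (by positivity)]
  calc c ≤ (N * H) ^ κ * max ‖ev t α P‖ ‖ev t α Q‖ := h1
    _ = _ := by rw [mul_pow]; ring

end Pool.Agent.H596.Q
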