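import Pool.Agent.H596.Q.Grp

/-!
# Elimination of one number
-/

set_option autoImplicit false

namespace Pool.Agent.H596.Q

open AddMonoidAlgebra Polynomial
open Pool.Agent.R356 (IsLen)

variable {K : Type*} [Field K] [NumberField K]

omit [NumberField K] in
lemma support_sum' {ι : Type*} (s : Finset ι) (f : ι → GR K) (S : Finset K)
    (h : ∀ i ∈ s, (f i).coeff.support ⊆ S) : (∑ i ∈ s, f i).coeff.support ⊆ S := by
  classical
  induction s using Finset.induction_on with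
  | empty => simp
  | insert a s ha ih =>
    rw [Finset.sum_insert ha, AddMonoidAlgebra.coeff_add]
    exact Finsupp.support_add.trans (Finset.union_subset (h a (Finset.mem_insert_self _ _))
      (ih fun i hi => h i (Finset.mem_insert_of_mem hi)))

omit [NumberField K] in
lemma support_neg' (x : GR K) : (-x).coeff.support ⊆ x.coeff.support := by
  intro γ hγ
  rw [Finsupp.mem_support_iff] at hγ ⊢
  intro h0
  apply hγ
  have := congrArg (fun z : GR K => z.coeff γ) (neg_add_cancel x)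
  simp only [AddMonoidAlgebra.coeff_add, Finsupp.add_apply, AddMonoidAlgebra.coeff_zero,
    Finsupp.zero_apply] at this
  linarith

lemma support_det (N : ℕ) (S : Finset K) : ∃ S' : Finset K, ∀ M : Matrix (Fin N) (Fin N) (GR K),
    (∀ i j, (M i j).coeff.support ⊆ S) → M.det.coeff.support ⊆ S' := by
  classical
  obtain ⟨S', hS'⟩ := support_prod (Finset.univ : Finset (Fin N)) (fun _ => S)
  refine ⟨S', fun M hM => ?_⟩
  rw [Matrix.det_apply]
  refine support_sum' _ _ _ fun σ _ => ?_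
  have h1 := hS' (fun i => M (σ i) i) fun i _ => hM _ _
  rcases Int.units_eq_one_or (Equiv.Perm.sign σ) with h3 | h3
  · rw [h3, one_smul]; exact h1
  · rw [h3, Units.neg_smul, one_smul]; exact (support_neg' _).trans h1

lemma support_res (d : ℕ) (S : Finset K) : ∃ S' : Finset K, ∀ P Q : (GR K)[X],
    (∀ i, (P.coeff i).coeff.support ⊆ S) → (∀ i, (Q.coeff i).coeff.support ⊆ S) →
    ∀ m n : ℕ, m ≤ d → n ≤ d → (resultant P Q m n).coeff.support ⊆ S' := by
  classical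
  choose S' hS' using fun N => support_det (K := K) N S
  refine ⟨(Finset.range (2 * d + 1)).biUnion S', fun P Q hP hQ m n hm hn => ?_⟩
  refine (hS' (m + n) (sylvester P Q m n) fun i j => ?_).trans
    (Finset.subset_biUnion_of_mem S' (Finset.mem_range.2 (by omega)))
  rw [sylvester, Matrix.of_apply]
  refine Fin.addCases (fun j₁ => ?_) (fun j₁ => ?_) j
  · rw [Fin.addCases_left]
    split_ifs
    · exact hQ _
    · simp
  · rw [Fin.addCases_right]
    split_ifs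
    · exact hP _
    · simp

/-- **Elimination.** -/
theorem elim [IsGalois ℚ K] (v : K →+* ℂ) (S : Finset K) (d : ℕ) (T : ℝ) :
    ∃ κ : ℕ, ∃ c : ℝ, 0 < c ∧ ∀ t : ℂ, ‖t‖ ≤ T → ∀ P Q : (GR K)[X], P.natDegree ≤ d →
      Q.natDegree ≤ d → (∀ i, (P.coeff i).coeff.support ⊆ S) →
      (∀ i, (Q.coeff i).coeff.support ⊆ S) → resultant P Q ≠ 0 → (P ≠ 0 ∨ Q ≠ 0) →
      ∀ H : ℝ, 1 ≤ H → (∀ i, L1 (P.coeff i) ≤ H) → (∀ i, L1 (Q.coeff i) ≤ H) →
      c ≤ H ^ κ * max ‖(P.map (E v)).eval t‖ ‖(Q.map (E v)).eval t‖ := by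
  classical
  obtain ⟨S', hS'⟩ := support_res d S
  obtain ⟨κ, c, hc, h⟩ := qlw v (S ∪ S')
  obtain ⟨R, hR⟩ : ∃ R : ℝ, R = ∑ γ ∈ S, ‖v γ‖ := ⟨_, rfl⟩
  have hR0 : 0 ≤ R := by rw [hR]; positivity
  have hRγ : ∀ γ ∈ S, ‖v γ‖ ≤ R := fun γ hγ => by
    rw [hR]; exact Finset.single_le_sum (f := fun γ => ‖v γ‖) (fun _ _ => norm_nonneg _) hγ
  obtain ⟨B, hB⟩ : ∃ B : ℝ, B = Real.exp R := ⟨_, rfl⟩
  have hB1 : 1 ≤ B := by rw [hB]; exact Real.one_le_exp hR0
  obtain ⟨T', hT'⟩ : ∃ T' : ℝ, T' = max 1 T := ⟨_, rfl⟩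
  have hT1 : 1 ≤ T' := by rw [hT']; exact le_max_left _ _
  obtain ⟨F, hF⟩ : ∃ F : ℝ, F = ((2 * d).factorial : ℝ) := ⟨_, rfl⟩
  have hF1 : 1 ≤ F := by
    rw [hF]; exact_mod_cast Nat.one_le_iff_ne_zero.2 (Nat.factorial_ne_zero _)
  obtain ⟨G, hG⟩ : ∃ G : ℝ, G = (2 * d + 1) * T' ^ (2 * d) * (F * B ^ (2 * d)) := ⟨_, rfl⟩
  have hG1 : 1 ≤ G := by
    rw [hG]
    have h1 : (1 : ℝ) ≤ 2 * d + 1 := by
      have : (0 : ℝ) ≤ d := Nat.cast_nonneg d
      linarith
    have h2 : (1 : ℝ) ≤ T' ^ (2 * d) := one_le_pow₀ hT1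
    have h3 : (1 : ℝ) ≤ B ^ (2 * d) := one_le_pow₀ hB1
    exact one_le_mul_of_one_le_of_one_le (one_le_mul_of_one_le_of_one_le h1 h2)
      (one_le_mul_of_one_le_of_one_le hF1 h3)
  refine ⟨2 * d * κ + κ + 2 * d, c / (F ^ κ * G), by positivity,
    fun t ht P Q hPd hQd hPS hQS hres hne H hH hPH hQH => ?_⟩
  have hH0 : 0 < H := by linarith
  obtain ⟨ε, hε⟩ : ∃ ε : ℝ, ε = max ‖(P.map (E v)).eval t‖ ‖(Q.map (E v)).eval t‖ := ⟨_, rfl⟩
  have hε0 : 0 ≤ ε := by rw [hε]; exact (norm_nonneg _).trans (le_max_left _ _)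
  have hPε : ‖(P.map (E v)).eval t‖ ≤ ε := by rw [hε]; exact le_max_left _ _
  have hQε : ‖(Q.map (E v)).eval t‖ ≤ ε := by rw [hε]; exact le_max_right _ _
  rw [← hε]
  -- the trivial case
  by_cases hmn : P.natDegree + Q.natDegree = 0
  · have hkey : ∃ x : GR K, x ≠ 0 ∧ x.coeff.support ⊆ S ∪ S' ∧ L1 x ≤ H ∧ ‖E v x‖ ≤ ε := by
      rcases hne with h0 | h0
      · have h1 := eq_C_of_natDegree_eq_zero (show P.natDegree = 0 by omega)
        refine ⟨P.coeff 0, fun h2 => h0 (by rw [h1, h2, C_0]),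
          (hPS 0).trans Finset.subset_union_left, hPH 0, ?_⟩
        rw [h1, map_C, eval_C] at hPε
        exact hPε
      · have h1 := eq_C_of_natDegree_eq_zero (show Q.natDegree = 0 by omega)
        refine ⟨Q.coeff 0, fun h2 => h0 (by rw [h1, h2, C_0]),
          (hQS 0).trans Finset.subset_union_left, hQH 0, ?_⟩
        rw [h1, map_C, eval_C] at hQε
        exact hQε
    obtain ⟨x, hx0, hxS, hxH, hxε⟩ := hkey
    have h1 := h x hx0 hxS H hH hxH
    have h2 : c ≤ H ^ (2 * d * κ + κ + 2 * d) * ε := by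
      refine h1.trans ?_
      refine mul_le_mul (pow_le_pow_right₀ hH (by nlinarith [Nat.zero_le (d * κ)])) hxε
        (norm_nonneg _) (by positivity)
    refine le_trans (div_le_self hc.le ?_) h2
    exact one_le_mul_of_one_le_of_one_le (one_le_pow₀ hF1) hG1
  set m := P.natDegree with hm
  set n := Q.natDegree with hn
  have hL1 : L1 (resultant P Q m n) ≤ F * H ^ (2 * d) := by
    refine (Pool.Agent.R523.Gel.res_len isLen_L1 P Q m n H H hPH hQH).trans ?_
    rw [← pow_add]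
    refine mul_le_mul ?_ (pow_le_pow_right₀ hH (by omega)) (by positivity) (by linarith)
    rw [hF]
    exact_mod_cast Nat.factorial_le (by omega)
  have hHF : 1 ≤ F * H ^ (2 * d) := one_le_mul_of_one_le_of_one_le hF1 (one_le_pow₀ hH)
  have h1 := h _ hres ((hS' P Q hPS hQS m n (by omega) (by omega)).trans
    Finset.subset_union_right) (F * H ^ (2 * d)) hHF hL1
  have hBH : 1 ≤ B * H := one_le_mul_of_one_le_of_one_le hB1 hH
  have hcf : ∀ F : (GR K)[X], (∀ i, (F.coeff i).coeff.support ⊆ S) → (∀ i, L1 (F.coeff i) ≤ H) →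
      ∀ i, ‖(F.map (E v)).coeff i‖ ≤ B * H := by
    intro F hFS hFH i
    rw [Polynomial.coeff_map]
    refine (E_le v (F.coeff i) R fun γ hγ => hRγ γ (hFS i hγ)).trans ?_
    rw [← hB]
    exact mul_le_mul_of_nonneg_left (hFH i) (by linarith)
  have h2 := Pool.Agent.R523.Gel.res_le (P.map (E v)) (Q.map (E v)) m n natDegree_map_le
    natDegree_map_le (by omega) (B * H) T' ε hBH (hcf P hPS hPH) (hcf Q hQS hQH) t hT1
    (ht.trans (by rw [hT']; exact le_max_right _ _)) hPε hQε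
  rw [resultant_map_map] at h2
  have h3 : ‖E v (resultant P Q m n)‖ ≤ G * H ^ (2 * d) * ε := by
    refine h2.trans ?_
    have e1 : ((m : ℝ) + n) ≤ 2 * d + 1 := by
      have : (m : ℝ) ≤ d := by exact_mod_cast hPd
      have : (n : ℝ) ≤ d := by exact_mod_cast hQd
      linarith
    have e2 : T' ^ (m + n) ≤ T' ^ (2 * d) := pow_le_pow_right₀ hT1 (by omega)
    have e3 : ((m + n).factorial : ℝ) ≤ F := by
      rw [hF]
      exact_mod_cast Nat.factorial_le (by omega)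
    have e4 : (B * H) ^ (m + n - 1) ≤ (B * H) ^ (2 * d) := pow_le_pow_right₀ hBH (by omega)
    calc ((m : ℝ) + n) * (T' ^ (m + n) * ε) * (((m + n).factorial : ℝ) * (B * H) ^ (m + n - 1)) ≤
          (2 * d + 1) * (T' ^ (2 * d) * ε) * (F * (B * H) ^ (2 * d)) := by gcongr
      _ = G * H ^ (2 * d) * ε := by rw [hG, mul_pow]; ring
  rw [div_le_iff₀ (by positivity)]
  calc c ≤ (F * H ^ (2 * d)) ^ κ * ‖E v (resultant P Q m n)‖ := h1
    _ ≤ (F * H ^ (2 * d)) ^ κ * (G * H ^ (2 * d) * ε) := mul_le_mul_of_nonneg_left h3 (by positivity)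
    _ = F ^ κ * G * ε * H ^ (2 * d * κ + 2 * d) := by
        rw [mul_pow, ← pow_mul, pow_add]; ring
    _ ≤ F ^ κ * G * ε * H ^ (2 * d * κ + κ + 2 * d) :=
        mul_le_mul_of_nonneg_left (pow_le_pow_right₀ hH (by omega)) (by positivity)
    _ = _ := by ring

end Pool.Agent.H596.Q
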